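import Pool.Agent.Q145.SZ.Stm2
import Pool.Agent.Helper112.MultLS

set_option autoImplicit false

/-! # SZ job LSB: large sieve for the box sums over all primitive characters -/

namespace Pool.Agent.Q145.SZ

open Finset Filter Complex MeasureTheory
open scoped Real
open Pool.Agent.W66 Pool.Agent.W66L

namespace LB

/-- the multiplicative large sieve for sequences supported in `(M, M + N]` -/
lemma mls_shift (M N F : ℕ) (α : ℕ → ℂ) (hα : ∀ n, n ≤ M → α n = 0) :
    ∑ f ∈ Icc 1 F, ((f : ℝ) / (Nat.totient f : ℝ)) *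
      ∑ χ ∈ prim f, ‖∑ n ∈ Icc 1 (M + N), α n * χ (n : ZMod f)‖ ^ 2
      ≤ 6 * (N + (F : ℝ) ^ 2) * ∑ n ∈ Icc 1 (M + N), ‖α n‖ ^ 2 := by
  have hsh : ∀ {E : Type} [AddCommMonoid E] (g : ℕ → E), (∀ n, n ≤ M → g n = 0) →
      ∑ n ∈ Icc 1 (M + N), g n = ∑ n ∈ Icc 1 N, g (n + M) := by
    intro E _ g hg
    have h4 : ∑ n ∈ Icc 1 N, g (n + M) = ∑ n ∈ Ico (1 + M) (N + 1 + M), g n := by
      rw [← Finset.sum_Ico_add']
      rfl
    rw [h4]
    symm
    apply sum_subset
    · intro n hn
      rw [mem_Ico] at hn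
      rw [mem_Icc]
      omega
    · intro n hn hn2
      rw [mem_Icc] at hn
      rw [mem_Ico] at hn2
      exact hg n (by omega)
  rw [hsh (fun n => ‖α n‖ ^ 2) (fun n hn => by simp [hα n hn])]
  refine le_trans (sum_le_sum ?_) (Pool.Agent.Helper112.additive_large_sieve N F (fun n => α (n + M)))
  intro f hf
  rw [mem_Icc] at hf
  have : NeZero f := ⟨by omega⟩
  have h1 := Pool.Agent.Helper112.MLS.prim_bound f (M + N) α
  rw [Pool.Agent.Helper112.MLS.sum_units] at h1
  refine h1.trans (le_of_eq ?_)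
  apply sum_congr rfl
  intro a _
  have h2 : ∑ n ∈ Icc 1 (M + N), α n * Pool.Agent.Helper112.ee (n * a / f) =
      Pool.Agent.Helper112.ee (M * a / f) *
        ∑ n ∈ Icc 1 N, α (n + M) * Pool.Agent.Helper112.ee (n * a / f) := by
    rw [hsh (fun n => α n * Pool.Agent.Helper112.ee (n * a / f)) (fun n hn => by simp [hα n hn]), mul_sum]
    apply sum_congr rfl
    intro n _
    have h3 : Pool.Agent.Helper112.ee (((n + M : ℕ) : ℝ) * a / f) =
        Pool.Agent.Helper112.ee (M * a / f) * Pool.Agent.Helper112.ee (n * a / f) := by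
      unfold Pool.Agent.Helper112.ee
      rw [← Complex.exp_add]
      congr 1
      push_cast
      ring
    rw [h3]
    ring
  have h5 : ‖Pool.Agent.Helper112.ee (M * a / f)‖ = 1 := by
    unfold Pool.Agent.Helper112.ee
    have : (2 * (Real.pi : ℂ) * ((M * a / f : ℝ) : ℂ) * Complex.I) =
        ((2 * Real.pi * (M * a / f : ℝ) : ℝ) : ℂ) * Complex.I := by push_cast; ring
    rw [this, Complex.norm_exp_ofReal_mul_I]
  rw [h2, norm_mul, h5, one_mul]

lemma point {h : ℝ} (hh : 0 < h) (hh1 : h ≤ 1) (F : ℕ) (L : Finset ℕ) (c : ℕ → ℂ)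
    (hL : ∀ l ∈ L, 0 < l) (hc : ∀ l ∈ L, c l ≠ 0 → (F : ℝ) ^ 2 ≤ h * l) (x : ℝ) :
    ∑ f ∈ Icc 1 F, ((f : ℝ) / Nat.totient f) * ∑ χ ∈ prim f, ‖bbC h L (fun l => χ l * c l) x‖ ^ 2 ≤
      ∑ l ∈ L, 48 * ‖c l‖ ^ 2 * (if |x - Real.log l| ≤ h / 2 then Real.exp x / h else 0) := by
  classical
  have hRHS : 0 ≤ ∑ l ∈ L, 48 * ‖c l‖ ^ 2 * (if |x - Real.log l| ≤ h / 2 then Real.exp x / h else 0) := by
    apply sum_nonneg
    intro l _
    apply mul_nonneg (by positivity)
    split_ifs <;> positivity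
  obtain ⟨α, hα⟩ : ∃ α : ℕ → ℂ, α = fun l => if l ∈ L ∧ |x - Real.log l| ≤ h / 2 then c l else 0 := ⟨_, rfl⟩
  have hbb : ∀ (f : ℕ) (χ : DirichletCharacter ℂ f) (T : ℕ), (∀ l, T < l → α l = 0) →
      bbC h L (fun l => χ l * c l) x = ((1 / h : ℝ) : ℂ) * ∑ n ∈ Icc 1 T, α n * χ (n : ZMod f) := by
    intro f χ T hT
    unfold bbC boxC Pool.Agent.W66.box
    have h1 : ∑ n ∈ Icc 1 T, α n * χ (n : ZMod f) = ∑ n ∈ L, α n * χ (n : ZMod f) := by
      have h2 : ∑ n ∈ Icc 1 T, α n * χ (n : ZMod f) = ∑ n ∈ Icc 1 T ∪ L, α n * χ (n : ZMod f) := by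
        apply sum_subset subset_union_left
        intro n hn hn2
        rw [mem_union, mem_Icc] at hn
        rw [mem_Icc] at hn2
        have h3 : n ∈ L := hn.resolve_left hn2
        have h4 := hL n h3
        rw [hT n (by omega), zero_mul]
      rw [h2]
      symm
      apply sum_subset subset_union_right
      intro n _ hn2
      rw [hα]
      simp only
      rw [if_neg (fun h => hn2 h.1), zero_mul]
    rw [h1, mul_sum]
    apply sum_congr rfl
    intro l hl
    rw [hα]
    simp only [hl, true_and]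
    split_ifs
    · ring
    · simp
  by_cases hne : ∃ l, α l ≠ 0
  · obtain ⟨l0, hl0⟩ := hne
    rw [hα] at hl0
    simp only [ne_eq, ite_eq_right_iff, not_forall] at hl0
    obtain ⟨⟨hlL, hlx⟩, hlc⟩ := hl0
    rcases Nat.eq_zero_or_pos F with hF | hF
    · rw [hF, Icc_eq_empty (by omega), sum_empty]
      exact hRHS
    have hF1 : (1 : ℝ) ≤ F := by exact_mod_cast hF
    have hFF := hc l0 hlL hlc
    have hl00 : (0 : ℝ) < l0 := by exact_mod_cast hL l0 hlL
    have hex := Real.exp_pos x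
    have hmem : ∀ l : ℕ, 0 < l → |x - Real.log l| ≤ h / 2 →
        Real.exp (x - h / 2) ≤ l ∧ (l : ℝ) ≤ Real.exp (x + h / 2) := by
      intro l hl hx
      have hl' : (0 : ℝ) < l := by exact_mod_cast hl
      rw [abs_le] at hx
      constructor
      · rw [← Real.le_log_iff_exp_le hl']; linarith
      · rw [← Real.log_le_iff_le_exp hl']; linarith
    have hexp1 : Real.exp (x + h / 2) ≤ Real.exp x * (1 + h) := by
      rw [Real.exp_add]
      apply mul_le_mul_of_nonneg_left _ hex.le
      have h1 := Real.abs_exp_sub_one_sub_id_le (x := h / 2) (by rw [abs_of_pos (by positivity)]; linarith)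
      rw [abs_le] at h1
      nlinarith
    have hexp2 : Real.exp x * (1 - h / 2) ≤ Real.exp (x - h / 2) := by
      rw [sub_eq_add_neg x, Real.exp_add]
      apply mul_le_mul_of_nonneg_left _ hex.le
      have := Real.add_one_le_exp (-(h / 2))
      linarith
    obtain ⟨hm1, hm2⟩ := hmem l0 (hL l0 hlL) hlx
    obtain ⟨M, hM⟩ : ∃ M, M = ⌈Real.exp (x - h / 2)⌉₊ - 1 := ⟨_, rfl⟩
    obtain ⟨T, hT⟩ : ∃ T, T = ⌊Real.exp (x + h / 2)⌋₊ := ⟨_, rfl⟩
    have hc1 : 1 ≤ ⌈Real.exp (x - h / 2)⌉₊ := Nat.ceil_pos.2 (Real.exp_pos _)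
    have hMreal : Real.exp (x - h / 2) - 1 ≤ M := by
      have h1 := Nat.le_ceil (Real.exp (x - h / 2))
      have h2 : (M : ℝ) = (⌈Real.exp (x - h / 2)⌉₊ : ℝ) - 1 := by
        rw [hM, Nat.cast_sub hc1, Nat.cast_one]
      linarith
    have hTreal : (T : ℝ) ≤ Real.exp (x + h / 2) := by
      rw [hT]; exact Nat.floor_le (Real.exp_pos _).le
    have hMl : M < l0 := by
      have h1 : ⌈Real.exp (x - h / 2)⌉₊ ≤ l0 := Nat.ceil_le.2 hm1
      omega
    have hTl : l0 ≤ T := by rw [hT]; exact Nat.le_floor hm2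
    obtain ⟨N, hN⟩ : ∃ N, T = M + N := ⟨T - M, by omega⟩
    have hα0 : ∀ n, n ≤ M → α n = 0 := by
      intro n hn
      rw [hα]
      simp only
      rw [if_neg]
      rintro ⟨h1, h2⟩
      have h3 := (hmem n (hL n h1) h2).1
      have h4 : ⌈Real.exp (x - h / 2)⌉₊ ≤ n := Nat.ceil_le.2 h3
      omega
    have hα1 : ∀ n, T < n → α n = 0 := by
      intro n hn
      rw [hα]
      simp only
      rw [if_neg]
      rintro ⟨h1, h2⟩
      have h3 := (hmem n (hL n h1) h2).2
      have h4 : n ≤ T := by rw [hT]; exact Nat.le_floor h3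
      omega
    have h1 := mls_shift M N F α hα0
    rw [← hN] at h1
    have h2 : ∀ f ∈ Icc 1 F, ((f : ℝ) / Nat.totient f) * ∑ χ ∈ prim f, ‖bbC h L (fun l => χ l * c l) x‖ ^ 2 =
        (1 / h) ^ 2 * (((f : ℝ) / (Nat.totient f : ℝ)) *
      ∑ χ ∈ prim f, ‖∑ n ∈ Icc 1 T, α n * χ (n : ZMod f)‖ ^ 2) := by
      intro f _
      rw [mul_left_comm ((1 / h) ^ 2), mul_sum (a := (1 / h) ^ 2)]
      congr 1
      apply sum_congr rfl
      intro χ _
      rw [hbb f χ T hα1, norm_mul, mul_pow, Complex.norm_real, Real.norm_of_nonneg (by positivity)]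
    rw [sum_congr rfl h2, ← mul_sum]
    have hcoef : 6 * ((N : ℝ) + F ^ 2) ≤ 48 * (h * Real.exp x) := by
      have hN1 : (N : ℝ) = T - M := by rw [hN]; push_cast; ring
      have e1 : (F : ℝ) ^ 2 ≤ 2 * (h * Real.exp x) := by
        calc (F : ℝ) ^ 2 ≤ h * l0 := hFF
          _ ≤ h * (Real.exp x * (1 + h)) := by
              apply mul_le_mul_of_nonneg_left _ hh.le
              linarith
          _ ≤ h * (Real.exp x * 2) := by
              apply mul_le_mul_of_nonneg_left _ hh.le
              apply mul_le_mul_of_nonneg_left _ hex.le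
              linarith
          _ = _ := by ring
      have e2 : (1 : ℝ) ≤ F ^ 2 := one_le_pow₀ hF1
      have e3 : (N : ℝ) ≤ 2 * (h * Real.exp x) + 1 := by
        rw [hN1]
        nlinarith
      linarith
    have hsumα : ∑ n ∈ Icc 1 T, ‖α n‖ ^ 2 ≤ ∑ l ∈ L, (if |x - Real.log l| ≤ h / 2 then ‖c l‖ ^ 2 else 0) := by
      have e1 : ∑ n ∈ Icc 1 T, ‖α n‖ ^ 2 ≤ ∑ n ∈ (Icc 1 T ∪ L), ‖α n‖ ^ 2 :=
        sum_le_sum_of_subset_of_nonneg subset_union_left fun _ _ _ => by positivity
      have e2 : ∑ n ∈ (Icc 1 T ∪ L), ‖α n‖ ^ 2 = ∑ n ∈ L, ‖α n‖ ^ 2 := by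
        symm
        apply sum_subset subset_union_right
        intro n _ hn2
        rw [hα]
        simp only
        rw [if_neg (fun h => hn2 h.1), norm_zero]
        norm_num
      rw [e2] at e1
      refine e1.trans (le_of_eq ?_)
      apply sum_congr rfl
      intro l hl
      rw [hα]
      simp only [hl, true_and]
      split_ifs <;> simp
    have hs0 : 0 ≤ ∑ n ∈ Icc 1 T, ‖α n‖ ^ 2 := sum_nonneg fun _ _ => by positivity
    calc _ ≤ (1 / h) ^ 2 * (6 * (N + (F : ℝ) ^ 2) * ∑ n ∈ Icc 1 T, ‖α n‖ ^ 2) :=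
          mul_le_mul_of_nonneg_left h1 (by positivity)
      _ ≤ (1 / h) ^ 2 * (48 * (h * Real.exp x) * ∑ l ∈ L, (if |x - Real.log l| ≤ h / 2 then ‖c l‖ ^ 2 else 0)) := by
          apply mul_le_mul_of_nonneg_left _ (by positivity)
          apply mul_le_mul hcoef hsumα hs0 (by positivity)
      _ = _ := by
          rw [mul_sum, mul_sum]
          apply sum_congr rfl
          intro l _
          split_ifs
          · field_simp
          · ring
  · push Not at hne
    refine le_trans (le_of_eq ?_) hRHS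
    apply sum_eq_zero
    intro f _
    have : ∑ χ ∈ prim f, ‖bbC h L (fun l => χ l * c l) x‖ ^ 2 = 0 := by
      apply sum_eq_zero
      intro χ _
      rw [hbb f χ 0 (fun l _ => hne l)]
      simp
    rw [this, mul_zero]

end LB

open LB in
theorem t_LSB : S_LSB := by
  refine ⟨96, by norm_num, fun F h L c hh hh1 hL hc => ?_⟩
  have hint : ∀ (f : ℕ) (χ : DirichletCharacter ℂ f), Integrable fun x => ‖bbC h L (fun l => χ l * c l) x‖ ^ 2 :=
    fun f χ => (memLp_two_iff_integrable_sq_norm (bbC_memLp h L _).1).1 (bbC_memLp h L _)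
  have h1 : ∑ f ∈ Icc 1 F, ((f : ℝ) / Nat.totient f) * ∑ χ ∈ prim f,
      ∫ x, ‖bbC h L (fun l => χ l * c l) x‖ ^ 2 =
      ∫ x, ∑ f ∈ Icc 1 F, ((f : ℝ) / Nat.totient f) * ∑ χ ∈ prim f, ‖bbC h L (fun l => χ l * c l) x‖ ^ 2 := by
    rw [integral_finsetSum]
    · apply sum_congr rfl
      intro f _
      rw [integral_const_mul, integral_finsetSum _ fun χ _ => hint f χ]
    · intro f _
      exact (integrable_finsetSum _ fun χ _ => hint f χ).const_mul _
  have hind : ∀ l : ℕ, (fun x => if |x - Real.log l| ≤ h / 2 then Real.exp x / h else 0) =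
      (Set.Icc (Real.log l - h / 2) (Real.log l + h / 2)).indicator fun x => Real.exp x / h := by
    intro l
    ext x
    rw [Set.indicator_apply]
    by_cases hx : |x - Real.log l| ≤ h / 2
    · rw [if_pos hx, if_pos]
      rw [abs_le] at hx
      exact ⟨by linarith [hx.1], by linarith [hx.2]⟩
    · rw [if_neg hx, if_neg]
      intro hx2
      apply hx
      rw [abs_le]
      exact ⟨by linarith [hx2.1], by linarith [hx2.2]⟩
  have hindi : ∀ l : ℕ, Integrable fun x => if |x - Real.log l| ≤ h / 2 then Real.exp x / h else 0 := by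
    intro l
    rw [hind l, integrable_indicator_iff measurableSet_Icc]
    exact (by fun_prop : Continuous fun x => Real.exp x / h).continuousOn.integrableOn_Icc
  have hindint : ∀ l ∈ L, ∫ x, (if |x - Real.log l| ≤ h / 2 then Real.exp x / h else 0) ≤ 2 * l := by
    intro l hl
    have hl0 : (0 : ℝ) < l := by exact_mod_cast hL l hl
    rw [hind l, integral_indicator measurableSet_Icc, integral_Icc_eq_integral_Ioc,
      ← intervalIntegral.integral_of_le (by linarith)]
    have h2 := intervalIntegral.norm_integral_le_of_norm_le_const (a := Real.log l - h / 2)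
      (b := Real.log l + h / 2) (f := fun x => Real.exp x / h) (C := 2 * l / h) (by
        intro x hx
        rw [Set.uIoc_of_le (by linarith)] at hx
        rw [Real.norm_of_nonneg (by positivity)]
        apply div_le_div_of_nonneg_right _ hh.le
        have h3 : Real.exp x ≤ Real.exp (Real.log l + h / 2) := Real.exp_le_exp.2 hx.2
        rw [Real.exp_add, Real.exp_log hl0] at h3
        have h4 : Real.exp (h / 2) ≤ 2 := by
          have h5 := Real.abs_exp_sub_one_sub_id_le (x := h / 2) (by rw [abs_of_pos (by positivity)]; linarith)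
          rw [abs_le] at h5
          nlinarith
        nlinarith)
    have h3 : |Real.log l + h / 2 - (Real.log l - h / 2)| = h := by
      rw [abs_of_pos (by linarith)]; ring
    rw [h3] at h2
    have h4 : 2 * l / h * h = 2 * l := by field_simp
    rw [h4] at h2
    exact (le_abs_self _).trans h2
  rw [h1]
  calc _ ≤ ∫ x, ∑ l ∈ L, 48 * ‖c l‖ ^ 2 * (if |x - Real.log l| ≤ h / 2 then Real.exp x / h else 0) := by
        apply integral_mono
        · exact integrable_finsetSum _ fun f _ => (integrable_finsetSum _ fun χ _ => hint f χ).const_mul _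
        · exact integrable_finsetSum _ fun l _ => (hindi l).const_mul _
        · intro x
          exact point hh hh1 F L c hL hc x
    _ = ∑ l ∈ L, 48 * ‖c l‖ ^ 2 * ∫ x, (if |x - Real.log l| ≤ h / 2 then Real.exp x / h else 0) := by
        rw [integral_finsetSum _ fun l _ => (hindi l).const_mul _]
        apply sum_congr rfl
        intro l _
        rw [integral_const_mul]
    _ ≤ ∑ l ∈ L, 48 * ‖c l‖ ^ 2 * (2 * l) := by
        apply sum_le_sum
        intro l hl
        exact mul_le_mul_of_nonneg_left (hindint l hl) (by positivity)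
    _ = _ := by
        rw [mul_sum]
        apply sum_congr rfl
        intro l _
        ring

end Pool.Agent.Q145.SZ
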