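import Pool.Agent.Q145.SZ.Stm2

set_option autoImplicit false

/-! # SZ job DXB: the logarithmic derivative under a zero-free hypothesis -/

open Complex Filter Topology Set MeasureTheory Metric
open scoped ArithmeticFunction.vonMangoldt ArithmeticFunction.Moebius

namespace Pool.Agent.Q145.SZ

open H370 H370.Loc Pool.Agent.W66 Pool.Agent.W66L

theorem t_DXB : S_DXB := by
  obtain ⟨K0, hK0, hball⟩ := LF_const
  refine ⟨K0 * 3, by positivity, fun Q _ χ hχ ω T hω hω4 hzf z hz hz2 hzT => ?_⟩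
  obtain ⟨t, ht⟩ : ∃ t, t = z.im := ⟨_, rfl⟩
  rw [← ht] at hzT ⊢
  have hell := one_le_lq Q t
  have hell0 : 0 < lq Q t := by linarith
  obtain ⟨M, hM1, hMb, hbd2, hbd⟩ := hball Q χ hχ t
  have hcn : χ.LFunction ⟨2, t⟩ ≠ 0 := LF_ne_zero hχ (by norm_num)
  have hcb : ‖χ.LFunction ⟨2, t⟩‖ ≤ M := hMb _ (mem_closedBall_self (by norm_num))
  have hzb : z ∈ closedBall (⟨2, t⟩ : ℂ) (9 / 8) := by
    rw [mem_closedBall, dist_eq_norm]
    have e : z - ⟨2, t⟩ = ((z.re - 2 : ℝ) : ℂ) := by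
      apply Complex.ext <;> simp [ht]
    rw [e, Complex.norm_real, Real.norm_eq_abs, abs_le]
    constructor <;> linarith
  have hdist : ∀ ρ ∈ closedBall (⟨2, t⟩ : ℂ) (3 / 2), χ.LFunction ρ = 0 →
      ω / 2 ≤ ‖z - ρ‖ := by
    intro ρ hρ h0
    rw [mem_closedBall, dist_eq_norm] at hρ
    have h2 := (Complex.abs_im_le_norm (ρ - ⟨2, t⟩)).trans hρ
    simp only [sub_im] at h2
    have h3 : |ρ.im| ≤ T := by
      have := abs_sub_abs_le_abs_sub ρ.im t
      linarith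
    have h4 : ρ.re ≤ 1 - ω := by
      by_contra hcon
      exact hzf ρ (not_le.1 hcon) h3 h0
    refine le_trans ?_ ((le_abs_self _).trans (Complex.abs_re_le_norm (z - ρ)))
    rw [sub_re]
    linarith
  obtain ⟨h1, h2⟩ := landau (f := χ.LFunction) (c := ⟨2, t⟩) (r := 3 / 2) (r1 := 11 / 8)
    (r2 := 9 / 8) (R := 7 / 4) (M := M) (by norm_num) (by norm_num) (by norm_num) (by norm_num)
    (by norm_num) hM1 hcb (fun z _ => (DirichletCharacter.differentiable_LFunction hχ).analyticAt z)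
    hcn hMb z hzb (ω / 2) (by positivity) hdist
  refine ⟨h1, h2.trans ?_⟩
  have hbd2 : Real.log (M / ‖χ.LFunction ⟨2, t⟩‖) / Real.log (7 / 4 / (3 / 2)) /
      (ω / 2) ≤ 2 * (K0 * lq Q t / ω) := by
    calc _ ≤ (K0 * lq Q t) / (ω / 2) := by gcongr
      _ = 2 * (K0 * lq Q t / ω) := by field_simp
  have h8 : K0 * lq Q t ≤ K0 * lq Q t / ω := by
    rw [le_div_iff₀ hω]
    have : 0 < K0 * lq Q t := by positivity
    nlinarith
  calc _ ≤ K0 * lq Q t + 2 * (K0 * lq Q t / ω) := by linarith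
    _ ≤ K0 * lq Q t / ω + 2 * (K0 * lq Q t / ω) := by linarith
    _ = K0 * 3 * lq Q t / ω := by ring

end Pool.Agent.Q145.SZ
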