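import Pool.Agent.Q145.SZ.Stm2

set_option autoImplicit false

/-! # SZ job HYB: mean squares of prime character sums over all primitive characters in short windows -/

open Complex Filter Topology Set MeasureTheory Metric
open scoped Real FourierTransform
open scoped ArithmeticFunction.vonMangoldt

namespace Pool.Agent.Q145.SZ

open Pool.Agent.W66 Pool.Agent.W66L

namespace HY

lemma prim_ne_one {f : ℕ} [NeZero f] (hf : 1 < f) {χ : DirichletCharacter ℂ f} (h : χ.IsPrimitive) : χ ≠ 1 := by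
  rintro rfl
  rw [DirichletCharacter.isPrimitive_def, DirichletCharacter.conductor_one] at h
  omega

lemma mem_prim {f : ℕ} {χ : DirichletCharacter ℂ f} : χ ∈ prim f ↔ χ.IsPrimitive := by
  classical
  unfold prim
  rw [Finset.mem_filter]
  exact ⟨fun h => h.2, fun h => ⟨Finset.mem_univ _, h⟩⟩

lemma card_prim (f : ℕ) [NeZero f] : ((prim f).card : ℝ) ≤ Nat.totient f := by
  classical
  have h2 : (prim f).card ≤ Fintype.card (DirichletCharacter ℂ f) := Finset.card_le_univ _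
  have h3 : Fintype.card (DirichletCharacter ℂ f) = Nat.totient f := by
    rw [← Nat.card_eq_fintype_card,
      DirichletCharacter.card_eq_totient_of_hasEnoughRootsOfUnity ℂ f]
  rw [h3] at h2
  exact_mod_cast h2

/-- the weighted number of primitive characters of conductor `≤ F` -/
lemma weight_sum (F : ℕ) : ∑ f ∈ Finset.Ioc 1 F, ((f : ℝ) / Nat.totient f) * ((prim f).card : ℝ) ≤ (F : ℝ) ^ 2 := by
  have h1 : ∀ f ∈ Finset.Ioc 1 F, ((f : ℝ) / Nat.totient f) * ((prim f).card : ℝ) ≤ F := by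
    intro f hf
    rw [Finset.mem_Ioc] at hf
    have : NeZero f := ⟨by omega⟩
    have h2 : (0 : ℝ) < Nat.totient f := by exact_mod_cast Nat.totient_pos.2 (by omega)
    calc _ ≤ ((f : ℝ) / Nat.totient f) * (Nat.totient f : ℝ) :=
          mul_le_mul_of_nonneg_left (card_prim f) (by positivity)
      _ = f := by field_simp
      _ ≤ F := by exact_mod_cast hf.2
  refine (Finset.sum_le_sum h1).trans ?_
  rw [Finset.sum_const, Nat.card_Ioc, nsmul_eq_mul]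
  have h3 : ((F - 1 : ℕ) : ℝ) ≤ F := by exact_mod_cast Nat.sub_le F 1
  have h4 : (0 : ℝ) ≤ F := Nat.cast_nonneg _
  nlinarith

/-- the bound for one character -/
lemma one_char {f : ℕ} [NeZero f] {χ : DirichletCharacter ℂ f} (hχ1 : χ ≠ 1) {Z h lam F M : ℝ} {w u0 U N' N : ℕ}
    (hZ20 : 20 ≤ Z) (hh : h = Real.exp (-lam)) (hlam0 : 0 ≤ lam) (hF : 1 ≤ F) (hfF : (f : ℝ) ≤ F)
    (hwn : 1 ≤ w) (hw2 : (w : ℝ) ≤ 2 * (F ^ 2 * Real.exp lam)) (hu01 : 1 ≤ u0) (hu0b : (u0 : ℝ) ≤ Z / 4 + 1)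
    (hu0U : u0 ≤ U) (hU1 : Z + 2 ≤ U) (hU2 : (U : ℝ) ≤ Z + 3) (hN'1 : Real.exp ((U : ℝ) + 1) ≤ N')
    (hlw : Real.log w + u0 + 3 ≤ Z) (hN : Real.exp (Z + 2) ≤ N) (hM0 : 0 ≤ M)
    (hM : ∀ u : ℕ, u0 ≤ u → u ≤ U → ∀ ξ : ℝ, ‖PX χ (u : ℝ) (2 * π * ξ)‖ * ‖𝓕 (boxC h) ξ‖ ≤ M) :
    ∫ z in Z..(Z + 1), ‖TX χ h N z‖ ^ 2 ≤ 2 * (288 * (F ^ 3 * Z ^ 2 * Real.exp (3 * lam + u0 - Z))) ^ 2 +
      2 * ((2 * Z) ^ 2 * (M ^ 2 * ∫ x, ‖bbC h (Finset.Ioc 0 N')
        (fun l : ℕ => χ l * ((aw w l / l : ℝ) : ℂ)) x‖ ^ 2)) := by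
  have hZ0 : 0 < Z := by linarith
  have hh0 : 0 < h := by rw [hh]; exact Real.exp_pos _
  have hh1 : h ≤ 1 := by rw [hh]; exact Real.exp_le_one_iff.2 (by linarith)
  have hw0 : (0 : ℝ) < w := by exact_mod_cast hwn
  obtain ⟨c, hc⟩ : ∃ c : ℕ → ℂ, c = fun l : ℕ => χ l * ((aw w l / l : ℝ) : ℂ) := ⟨_, rfl⟩
  rw [← hc]
  set G : ℝ → ℂ := fun z => ∑ u ∈ Finset.Icc u0 U,
    FX χ u h N' (Finset.Ioc 0 N') c z with hG
  set E : ℝ := 288 * (F ^ 3 * Z ^ 2 * Real.exp (3 * lam + u0 - Z)) with hE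
  have hF0 : 0 < F := by linarith
  have hE0 : 0 ≤ E := by positivity
  have hhinv : ∀ a : ℝ, a / h ^ 2 = a * Real.exp (2 * lam) := by
    intro a
    rw [hh, ← Real.exp_nat_mul, div_eq_mul_inv, ← Real.exp_neg]
    congr 2
    push_cast
    ring
  have hpt : ∀ z, Z ≤ z → z ≤ Z + 1 → ‖TX χ h N z - G z‖ ≤ E := by
    intro z hz1 hz2
    have hzN : Real.exp (z + h) ≤ N := le_trans (Real.exp_le_exp.2 (by linarith)) hN
    have hzN' : Real.exp (z + h) ≤ N' := le_trans (Real.exp_le_exp.2 (by linarith)) hN'1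
    rw [TX_indep χ hh0 hzN' hzN]
    have h1 := KT_ineqX hχ1 hh0 hh1 w N' u0 U hwn hz1 hz2 hu01 hu0U hU1 hN'1 hlw
    rw [← hc] at h1
    refine h1.trans ?_
    rw [hhinv, hhinv]
    have hez : Real.exp (-z) ≤ Real.exp (u0 - Z) := by
      apply Real.exp_le_exp.2
      have : (0 : ℝ) ≤ u0 := Nat.cast_nonneg _
      linarith
    have h5 : (1 : ℝ) ≤ u0 := by exact_mod_cast hu01
    have h6 : (u0 : ℝ) * (1 + u0) ≤ Z ^ 2 := by
      rw [sq]
      exact mul_le_mul (by linarith) (by linarith) (by linarith) hZ0.le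
    have hfac : (w : ℝ) * f ≤ 2 * (F ^ 3 * Real.exp lam) := by
      calc (w : ℝ) * f ≤ (2 * (F ^ 2 * Real.exp lam)) * F := by gcongr
        _ = _ := by ring
    have e0 : Real.exp (3 * lam + u0 - Z) = Real.exp lam * (Real.exp (u0 - Z) * Real.exp (2 * lam)) := by
      rw [← Real.exp_add, ← Real.exp_add]; congr 1; ring
    have t1 : (w : ℝ) * (f * (48 * (z + 2) * (Real.exp (-z) * Real.exp (2 * lam)))) ≤
        (2 * (F ^ 3 * Real.exp lam)) * (48 * (2 * Z) * (Real.exp (u0 - Z) * Real.exp (2 * lam))) := by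
      rw [← mul_assoc]
      have hz3 : z + 2 ≤ 2 * Z := by linarith
      have hz4 : 0 ≤ z + 2 := by linarith
      gcongr
    have t2 : (u0 : ℝ) * (1 + u0) * (w * (f * (48 * 1 * (Real.exp (u0 - Z) * Real.exp (2 * lam))))) ≤
        Z ^ 2 * ((2 * (F ^ 3 * Real.exp lam)) * (48 * 1 * (Real.exp (u0 - Z) * Real.exp (2 * lam)))) := by
      rw [← mul_assoc (w : ℝ)]
      gcongr
    have e1 : (2 * (F ^ 3 * Real.exp lam)) * (48 * (2 * Z) * (Real.exp (u0 - Z) * Real.exp (2 * lam))) =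
        192 * (F ^ 3 * Z * Real.exp (3 * lam + u0 - Z)) := by rw [e0]; ring
    have e2 : Z ^ 2 * ((2 * (F ^ 3 * Real.exp lam)) * (48 * 1 * (Real.exp (u0 - Z) * Real.exp (2 * lam)))) =
        96 * (F ^ 3 * Z ^ 2 * Real.exp (3 * lam + u0 - Z)) := by rw [e0]; ring
    have e3 : F ^ 3 * Z * Real.exp (3 * lam + u0 - Z) ≤ F ^ 3 * Z ^ 2 * Real.exp (3 * lam + u0 - Z) := by
      have : Z ≤ Z ^ 2 := by
        rw [sq]
        exact le_mul_of_one_le_left hZ0.le (by linarith)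
      gcongr
    rw [e1] at t1
    rw [e2] at t2
    rw [hE]
    linarith
  have hGc : Continuous G := by
    apply continuous_finsetSum
    intro u _
    exact FX_continuous χ h u N' _ _
  have hdom : Integrable fun z => ((Finset.Icc u0 U).card : ℝ) * ∑ u ∈ Finset.Icc u0 U,
        ‖FX χ u h N' (Finset.Ioc 0 N') c z‖ ^ 2 :=
      (integrable_finsetSum _ fun (u : ℕ) _ => FX_sq_integrable χ hh0 u N' _ _).const_mul _
  have hGint : Integrable fun z => ‖G z‖ ^ 2 := by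
    refine hdom.mono' (hGc.norm.pow 2).aestronglyMeasurable (Eventually.of_forall fun z => ?_)
    rw [Real.norm_of_nonneg (by positivity)]
    exact norm_sum_sq_le _ _
  have hJ0 : 0 ≤ ∫ x, ‖bbC h (Finset.Ioc 0 N') c x‖ ^ 2 := integral_nonneg fun x => by positivity
  have hGsq : ∫ z, ‖G z‖ ^ 2 ≤ (2 * Z) ^ 2 * (M ^ 2 * ∫ x, ‖bbC h (Finset.Ioc 0 N') c x‖ ^ 2) := by
    have h2 : ∫ z, ‖G z‖ ^ 2 ≤ ∫ z, ((Finset.Icc u0 U).card : ℝ) * ∑ u ∈ Finset.Icc u0 U,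
        ‖FX χ u h N' (Finset.Ioc 0 N') c z‖ ^ 2 := by
      apply integral_mono hGint hdom
      intro z
      exact norm_sum_sq_le _ _
    refine h2.trans ?_
    rw [integral_const_mul, integral_finsetSum _ fun (u : ℕ) _ => FX_sq_integrable χ hh0 u N' _ _]
    have h3 : ((Finset.Icc u0 U).card : ℝ) ≤ 2 * Z := by
      rw [Nat.card_Icc]
      have h4 : ((U + 1 - u0 : ℕ) : ℝ) ≤ ((U : ℕ) : ℝ) := by
        exact_mod_cast (by omega : U + 1 - u0 ≤ U)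
      linarith
    have h4 : ∑ u ∈ Finset.Icc u0 U, ∫ z, ‖FX χ u h N' (Finset.Ioc 0 N') c z‖ ^ 2 ≤
        ((Finset.Icc u0 U).card : ℝ) * (M ^ 2 * ∫ x, ‖bbC h (Finset.Ioc 0 N') c x‖ ^ 2) := by
      rw [← nsmul_eq_mul, ← Finset.sum_const]
      apply Finset.sum_le_sum
      intro u hu
      rw [Finset.mem_Icc] at hu
      have hu2 : (u : ℝ) ≤ U := by exact_mod_cast hu.2
      exact dispersionX χ (u := (u : ℝ)) hh0 N' (by
        refine le_trans (Real.exp_le_exp.2 ?_) hN'1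
        linarith) (Finset.Ioc 0 N') c hM0 (hM u hu.1 hu.2)
    have h5 : 0 ≤ M ^ 2 * ∫ x, ‖bbC h (Finset.Ioc 0 N') c x‖ ^ 2 := mul_nonneg (by positivity) hJ0
    have h6 : (0 : ℝ) ≤ ((Finset.Icc u0 U).card : ℝ) := Nat.cast_nonneg _
    calc _ ≤ ((Finset.Icc u0 U).card : ℝ) * (((Finset.Icc u0 U).card : ℝ) *
          (M ^ 2 * ∫ x, ‖bbC h (Finset.Ioc 0 N') c x‖ ^ 2)) := mul_le_mul_of_nonneg_left h4 h6
      _ ≤ (2 * Z) * ((2 * Z) * (M ^ 2 * ∫ x, ‖bbC h (Finset.Ioc 0 N') c x‖ ^ 2)) := by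
          apply mul_le_mul h3 _ (mul_nonneg h6 h5) (by positivity)
          exact mul_le_mul_of_nonneg_right h3 h5
      _ = _ := by ring
  have hTc := TX_continuous χ h N
  have h1 : ∫ z in Z..(Z + 1), ‖TX χ h N z‖ ^ 2 ≤
      ∫ z in Z..(Z + 1), (2 * E ^ 2 + 2 * ‖G z‖ ^ 2) := by
    apply intervalIntegral.integral_mono_on (by linarith)
    · exact (hTc.norm.pow 2).intervalIntegrable _ _
    · exact (intervalIntegrable_const).add ((hGint.const_mul 2).intervalIntegrable)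
    · intro z hz
      have h2 := hpt z hz.1 hz.2
      have h3 : ‖TX χ h N z‖ ≤ E + ‖G z‖ := by
        have : TX χ h N z = (TX χ h N z - G z) + G z := by ring
        rw [this]
        exact (norm_add_le _ _).trans (add_le_add h2 le_rfl)
      have h4 : ‖TX χ h N z‖ ^ 2 ≤ (E + ‖G z‖) ^ 2 := by gcongr
      have h5 : (E + ‖G z‖) ^ 2 = 2 * E ^ 2 + 2 * ‖G z‖ ^ 2 - (E - ‖G z‖) ^ 2 := by ring
      have h6 := sq_nonneg (E - ‖G z‖)
      rw [h5] at h4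
      linarith only [h4, h6]
  refine h1.trans ?_
  rw [intervalIntegral.integral_add intervalIntegrable_const
    ((hGint.const_mul 2).intervalIntegrable),
    intervalIntegral.integral_const, intervalIntegral.integral_const_mul, smul_eq_mul]
  have h2 : ∫ z in Z..(Z + 1), ‖G z‖ ^ 2 ≤ ∫ z, ‖G z‖ ^ 2 := by
    rw [intervalIntegral.integral_of_le (by linarith)]
    exact setIntegral_le_integral hGint (Eventually.of_forall fun z => by
      simp only [Pi.zero_apply]; positivity)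
  have e : (Z + 1 - Z) * (2 * E ^ 2) = 2 * E ^ 2 := by ring
  rw [e]
  linarith

end HY

open HY in
theorem t_HYB : S_HYB := by
  intro hMBX hPXB' hLSB A
  obtain ⟨D, hD⟩ : ∃ D, D = A + 6 := ⟨_, rfl⟩
  obtain ⟨K, hK, hM⟩ := hMBX hPXB' D
  obtain ⟨CL, hCL, hL⟩ := hLSB
  -- the constants
  obtain ⟨K3, hK3⟩ : ∃ K3 : ℝ, K3 = 2 + 128 * K ^ 2 * CL := ⟨_, rfl⟩
  have hlim1 : ∀ᶠ Z : ℝ in atTop, 11 * (Z ^ (D + 1) * Real.exp (-√Z)) ≤ 1 := by
    have h1 := (Real.tendsto_pow_mul_exp_neg_atTop_nhds_zero (2 * (D + 1))).comp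
      Real.tendsto_sqrt_atTop
    have h2 : ∀ᶠ Z : ℝ in atTop, (√Z) ^ (2 * (D + 1)) * Real.exp (-√Z) < 1 / 11 :=
      h1.eventually_lt_const (by norm_num)
    filter_upwards [h2, eventually_ge_atTop 0] with Z h3 h4
    rw [pow_mul, Real.sq_sqrt h4] at h3
    linarith
  have hlim2 : ∀ᶠ Z : ℝ in atTop, 288 ^ 2 * 9 * (Z ^ (4 + 2 * D) * Real.exp (-Z)) ≤ 1 := by
    have h1 := Real.tendsto_pow_mul_exp_neg_atTop_nhds_zero (4 + 2 * D)
    have h2 : ∀ᶠ Z : ℝ in atTop, Z ^ (4 + 2 * D) * Real.exp (-Z) < 1 / (288 ^ 2 * 9) :=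
      h1.eventually_lt_const (by positivity)
    filter_upwards [h2] with Z h3
    rw [lt_div_iff₀ (by positivity)] at h3
    linarith
  obtain ⟨Z1, hZ1⟩ := (hlim1.and hlim2).exists_forall_of_atTop
  refine ⟨8 * (D + 1) + 56, max (max Z1 K3) 20, by
    have : (0 : ℝ) ≤ D := Nat.cast_nonneg _
    linarith, by
    refine le_trans ?_ (le_max_right _ _); norm_num,
    fun F Z lam h ω T hZ hlam1 hlam2 hF hFlam hh hω hω4 hωZ hT hZF N hN => ?_⟩
  have hD0 : (0 : ℝ) ≤ D := Nat.cast_nonneg _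
  have hFr : (1 : ℝ) ≤ F := by exact_mod_cast hF
  have hF0 : (0 : ℝ) < F := by linarith
  have hFe : (F : ℝ) ≤ Real.exp lam := by
    rw [← Real.log_le_iff_le_exp hF0]; exact hFlam
  have hZ20 : 20 ≤ Z := (le_max_right _ _).trans hZ
  have hZK : K3 ≤ Z := ((le_max_right _ _).trans (le_max_left _ _)).trans hZ
  obtain ⟨hE1, hE2⟩ := hZ1 Z (((le_max_left _ _).trans (le_max_left _ _)).trans hZ)
  have hZ0 : 0 < Z := by linarith
  have hZD0 : 0 < Z ^ D := by positivity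
  have hh0 : 0 < h := by rw [hh]; exact Real.exp_pos _
  have hsq1 : 1 ≤ √Z := by rw [Real.one_le_sqrt]; linarith
  have hlam0 : 1 ≤ lam := hsq1.trans hlam1
  have hh1 : h ≤ 1 := by rw [hh]; exact Real.exp_le_one_iff.2 (by linarith)
  have hlogZ : 1 ≤ Real.log Z := by
    rw [Real.le_log_iff_exp_le hZ0]
    linarith [Real.exp_one_lt_d9]
  have hlam56 : 56 * lam ≤ Z := by
    refine le_trans ?_ hlam2
    apply mul_le_mul_of_nonneg_right _ (by linarith)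
    linarith
  -- parameters
  obtain ⟨w, hw⟩ : ∃ w, w = ⌈(F : ℝ) ^ 2 * Real.exp lam⌉₊ := ⟨_, rfl⟩
  have hw1 : (F : ℝ) ^ 2 * Real.exp lam ≤ w := by rw [hw]; exact Nat.le_ceil _
  have hFe1 : 1 ≤ (F : ℝ) ^ 2 * Real.exp lam :=
    one_le_mul_of_one_le_of_one_le (one_le_pow₀ hFr) (Real.one_le_exp (by linarith))
  have hw2 : (w : ℝ) ≤ 2 * ((F : ℝ) ^ 2 * Real.exp lam) := by
    have h1 : (w : ℝ) < (F : ℝ) ^ 2 * Real.exp lam + 1 := by
      rw [hw]; exact Nat.ceil_lt_add_one (by positivity)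
    linarith
  have hw0 : (0 : ℝ) < w := by linarith
  have hwn : 1 ≤ w := by exact_mod_cast hw0
  have hlw2 : Real.log w ≤ 3 * lam + 1 := by
    rw [Real.log_le_iff_le_exp hw0]
    have e1 : Real.exp (3 * lam + 1) = Real.exp lam ^ 2 * Real.exp lam * Real.exp 1 := by
      rw [← Real.exp_nat_mul, ← Real.exp_add, ← Real.exp_add]; congr 1; push_cast; ring
    rw [e1]
    have e2 : (2 : ℝ) ≤ Real.exp 1 := by linarith [Real.exp_one_gt_d9]
    calc (w : ℝ) ≤ 2 * ((F : ℝ) ^ 2 * Real.exp lam) := hw2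
      _ = (F : ℝ) ^ 2 * Real.exp lam * 2 := by ring
      _ ≤ _ := by gcongr
  obtain ⟨u0, hu0⟩ : ∃ u0, u0 = ⌈2 * (D + 1) * Real.log Z / ω⌉₊ := ⟨_, rfl⟩
  have hu0a : 2 * (D + 1) * Real.log Z / ω ≤ u0 := by rw [hu0]; exact Nat.le_ceil _
  have hu0pos : 0 < 2 * (D + 1) * Real.log Z / ω := by positivity
  have hu0b : (u0 : ℝ) ≤ Z / 4 + 1 := by
    have h1 : (u0 : ℝ) < 2 * (D + 1) * Real.log Z / ω + 1 := by
      rw [hu0]; exact Nat.ceil_lt_add_one hu0pos.le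
    have h2 : 2 * (D + 1) * Real.log Z / ω ≤ Z / 4 := by
      rw [div_le_iff₀ hω]
      have h3 : 8 * ((D : ℝ) + 1) * Real.log Z ≤ ω * Z := by
        refine le_trans ?_ hωZ
        apply mul_le_mul_of_nonneg_right _ (by linarith)
        linarith
      linarith
    linarith
  have hu01 : 1 ≤ u0 := by rw [hu0]; exact Nat.ceil_pos.2 hu0pos
  obtain ⟨U, hU⟩ : ∃ U, U = ⌈Z + 2⌉₊ := ⟨_, rfl⟩
  have hU1 : Z + 2 ≤ U := by rw [hU]; exact Nat.le_ceil _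
  have hU2 : (U : ℝ) ≤ Z + 3 := by
    have := Nat.ceil_lt_add_one (show 0 ≤ Z + 2 by linarith)
    rw [← hU] at this
    linarith
  have hu0U : u0 ≤ U := by
    have : (u0 : ℝ) ≤ U := by linarith
    exact_mod_cast this
  obtain ⟨N', hN'⟩ : ∃ N', N' = ⌈Real.exp ((U : ℝ) + 1)⌉₊ := ⟨_, rfl⟩
  have hN'1 : Real.exp ((U : ℝ) + 1) ≤ N' := by rw [hN']; exact Nat.le_ceil _
  have hN'0 : (0 : ℝ) < N' := lt_of_lt_of_le (Real.exp_pos _) hN'1
  have hN'n : 1 ≤ N' := by exact_mod_cast hN'0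
  have hN'2 : Real.log N' ≤ Z + 5 := by
    rw [Real.log_le_iff_le_exp hN'0]
    have h1 : (N' : ℝ) < Real.exp ((U : ℝ) + 1) + 1 := by
      rw [hN']; exact Nat.ceil_lt_add_one (Real.exp_pos _).le
    have h2 : Real.exp ((U : ℝ) + 1) ≤ Real.exp (Z + 4) := Real.exp_le_exp.2 (by linarith)
    have h3 : Real.exp (Z + 5) = Real.exp (Z + 4) * Real.exp 1 := by
      rw [← Real.exp_add]; congr 1; ring
    have h4 : 1 ≤ Real.exp (Z + 4) := Real.one_le_exp (by linarith)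
    have h5 : (2 : ℝ) ≤ Real.exp 1 := by linarith [Real.exp_one_gt_d9]
    have h6 := mul_le_mul_of_nonneg_left h5 (Real.exp_pos (Z + 4)).le
    rw [h3]
    linarith
  have hlw : Real.log w + u0 + 3 ≤ Z := by linarith
  obtain ⟨M, hMdef⟩ : ∃ M : ℝ, M = K * (Z ^ 2 / Z ^ D) := ⟨_, rfl⟩
  have hM0 : 0 ≤ M := by rw [hMdef]; positivity
  obtain ⟨E, hE⟩ : ∃ E : ℝ, E = 288 * ((F : ℝ) ^ 3 * Z ^ 2 * Real.exp (3 * lam + u0 - Z)) := ⟨_, rfl⟩
  -- the bound for every character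
  have hone : ∀ f ∈ Finset.Ioc 1 F, ∀ χ ∈ prim f, ∫ z in Z..(Z + 1), ‖TX χ h N z‖ ^ 2 ≤ 2 * E ^ 2 +
      2 * ((2 * Z) ^ 2 * (M ^ 2 * ∫ x, ‖bbC h (Finset.Ioc 0 N')
        (fun l : ℕ => χ l * ((aw w l / l : ℝ) : ℂ)) x‖ ^ 2)) := by
    intro f hf χ hχ
    rw [Finset.mem_Ioc] at hf
    have : NeZero f := ⟨by omega⟩
    rw [mem_prim] at hχ
    have hχ1 := prim_ne_one hf.1 hχ
    have hfF : (f : ℝ) ≤ F := by exact_mod_cast hf.2
    rw [hE]
    refine one_char hχ1 hZ20 hh (by linarith) hFr hfF hwn hw2 hu01 hu0b hu0U hU1 hU2 hN'1 hlw hN hM0 ?_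
    intro u hu1 hu2 ξ
    rw [hMdef]
    have hu1r : (u0 : ℝ) ≤ u := by exact_mod_cast hu1
    have hu2r : (u : ℝ) ≤ U := by exact_mod_cast hu2
    have hu3 : (1 : ℝ) ≤ u := by exact_mod_cast hu01.trans hu1
    have hf0 : (0 : ℝ) < f := by exact_mod_cast (by omega : 0 < f)
    refine hM f χ hχ1 Z lam h ω T u hZ20 hE1 hlam1 (by linarith)
      ((Real.log_le_log hf0 hfF).trans hFlam) hh hω hω4 hT ?_ hu3 ?_ (by linarith) ξ
    · intro s hs1 hs2
      exact hZF f hf.1 hf.2 χ hχ s hs1 hs2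
    · have h1 := hu0a.trans hu1r
      rw [div_le_iff₀ hω] at h1
      linarith
  -- the large sieve
  have hls : ∑ f ∈ Finset.Ioc 1 F, ((f : ℝ) / Nat.totient f) * ∑ χ ∈ prim f,
      ∫ x, ‖bbC h (Finset.Ioc 0 N') (fun l : ℕ => χ l * ((aw w l / l : ℝ) : ℂ)) x‖ ^ 2 ≤ CL * (2 * Z) ^ 4 := by
    have h1 := hL F h (Finset.Ioc 0 N') (fun l : ℕ => ((aw w l / l : ℝ) : ℂ)) hh0 hh1
      (fun l hl => (Finset.mem_Ioc.1 hl).1) (by
        intro l hl hne
        have hl0 := (Finset.mem_Ioc.1 hl).1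
        have hlw : w < l := by
          by_contra hc
          apply hne
          rw [aw_zero_of hl0 (not_lt.1 hc), zero_div, Complex.ofReal_zero]
        have h4 : (F : ℝ) ^ 2 * Real.exp lam ≤ l := hw1.trans (by exact_mod_cast hlw.le)
        have h5 : h * ((F : ℝ) ^ 2 * Real.exp lam) = (F : ℝ) ^ 2 := by
          rw [hh]
          have : Real.exp (-lam) * Real.exp lam = 1 := by rw [← Real.exp_add]; simp
          linear_combination (F : ℝ) ^ 2 * this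
        rw [← h5]
        exact mul_le_mul_of_nonneg_left h4 hh0.le)
    have h2 : ∑ f ∈ Finset.Ioc 1 F, ((f : ℝ) / Nat.totient f) * ∑ χ ∈ prim f,
      ∫ x, ‖bbC h (Finset.Ioc 0 N') (fun l : ℕ => χ l * ((aw w l / l : ℝ) : ℂ)) x‖ ^ 2 ≤
      ∑ f ∈ Finset.Icc 1 F, ((f : ℝ) / Nat.totient f) * ∑ χ ∈ prim f,
      ∫ x, ‖bbC h (Finset.Ioc 0 N') (fun l : ℕ => χ l * ((aw w l / l : ℝ) : ℂ)) x‖ ^ 2 := by
      apply Finset.sum_le_sum_of_subset_of_nonneg Finset.Ioc_subset_Icc_self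
      intro f _ _
      apply mul_nonneg (by positivity)
      exact Finset.sum_nonneg fun χ _ => integral_nonneg fun x => by positivity
    refine h2.trans (h1.trans ?_)
    apply mul_le_mul_of_nonneg_left _ hCL.le
    have h3 : ∑ l ∈ Finset.Ioc 0 N', (l : ℝ) * ‖((aw w l / l : ℝ) : ℂ)‖ ^ 2 =
        ∑ l ∈ Finset.Ioc 0 N', (l : ℝ) * (aw w l / l) ^ 2 := by
      apply Finset.sum_congr rfl
      intro l _
      rw [Complex.norm_real, Real.norm_eq_abs, sq_abs]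
    rw [h3]
    refine (aw_sum w N' hN'n).trans ?_
    have h5 : 0 ≤ Real.log N' := Real.log_nonneg (by exact_mod_cast hN'n)
    gcongr
    linarith
  -- summation
  have hsum : ∑ f ∈ Finset.Ioc 1 F, ((f : ℝ) / Nat.totient f) * ∑ χ ∈ prim f,
      ∫ z in Z..(Z + 1), ‖TX χ h N z‖ ^ 2 ≤
      2 * E ^ 2 * (∑ f ∈ Finset.Ioc 1 F, ((f : ℝ) / Nat.totient f) * ((prim f).card : ℝ)) +
      2 * ((2 * Z) ^ 2 * M ^ 2) * ∑ f ∈ Finset.Ioc 1 F, ((f : ℝ) / Nat.totient f) * ∑ χ ∈ prim f,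
        ∫ x, ‖bbC h (Finset.Ioc 0 N') (fun l : ℕ => χ l * ((aw w l / l : ℝ) : ℂ)) x‖ ^ 2 := by
    rw [Finset.mul_sum, Finset.mul_sum, ← Finset.sum_add_distrib]
    apply Finset.sum_le_sum
    intro f hf
    have h1 : ∑ χ ∈ prim f, ∫ z in Z..(Z + 1), ‖TX χ h N z‖ ^ 2 ≤
        ((prim f).card : ℝ) * (2 * E ^ 2) + 2 * ((2 * Z) ^ 2 * M ^ 2) * ∑ χ ∈ prim f,
        ∫ x, ‖bbC h (Finset.Ioc 0 N') (fun l : ℕ => χ l * ((aw w l / l : ℝ) : ℂ)) x‖ ^ 2 := by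
      rw [← nsmul_eq_mul, ← Finset.sum_const, Finset.mul_sum, ← Finset.sum_add_distrib]
      apply Finset.sum_le_sum
      intro χ hχ
      refine (hone f hf χ hχ).trans (le_of_eq ?_)
      ring
    calc _ ≤ ((f : ℝ) / Nat.totient f) * (((prim f).card : ℝ) * (2 * E ^ 2) + 2 * ((2 * Z) ^ 2 * M ^ 2) * ∑ χ ∈ prim f,
        ∫ x, ‖bbC h (Finset.Ioc 0 N') (fun l : ℕ => χ l * ((aw w l / l : ℝ) : ℂ)) x‖ ^ 2) :=
          mul_le_mul_of_nonneg_left h1 (by positivity)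
      _ = _ := by ring
  refine hsum.trans ?_
  have hb1 : 2 * E ^ 2 * (∑ f ∈ Finset.Ioc 1 F, ((f : ℝ) / Nat.totient f) * ((prim f).card : ℝ)) ≤
      2 * (1 / (Z ^ D) ^ 2) := by
    have e0 : 2 * E ^ 2 * (∑ f ∈ Finset.Ioc 1 F, ((f : ℝ) / Nat.totient f) * ((prim f).card : ℝ)) ≤
        2 * E ^ 2 * (F : ℝ) ^ 2 := mul_le_mul_of_nonneg_left (weight_sum F) (by positivity)
    have e1 : E ^ 2 * (F : ℝ) ^ 2 ≤ 288 ^ 2 * (Z ^ 4 * (9 * Real.exp (-Z))) := by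
      have e2 : (F : ℝ) ^ 8 ≤ Real.exp (8 * lam) := by
        calc (F : ℝ) ^ 8 ≤ Real.exp lam ^ 8 := by gcongr
          _ = _ := by rw [← Real.exp_nat_mul]; norm_num
      have e3 : Real.exp (3 * lam + u0 - Z) ^ 2 = Real.exp (2 * (3 * lam + u0 - Z)) := by
        rw [← Real.exp_nat_mul]; norm_num
      have e4 : Real.exp (8 * lam) * Real.exp (2 * (3 * lam + u0 - Z)) ≤ 9 * Real.exp (-Z) := by
        rw [← Real.exp_add]
        have e5 : Real.exp (8 * lam + 2 * (3 * lam + u0 - Z)) ≤ Real.exp (2 + -Z) :=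
          Real.exp_le_exp.2 (by linarith)
        rw [Real.exp_add 2] at e5
        have e6 : Real.exp 2 ≤ 9 := by
          have : Real.exp 2 = Real.exp 1 ^ 2 := by rw [← Real.exp_nat_mul]; norm_num
          rw [this]
          have h1 : Real.exp 1 ≤ 3 := by linarith only [Real.exp_one_lt_d9]
          have h2 : Real.exp 1 ^ 2 ≤ 3 ^ 2 := pow_le_pow_left₀ (Real.exp_pos 1).le h1 2
          linarith only [h2]
        have e7 : Real.exp 2 * Real.exp (-Z) ≤ 9 * Real.exp (-Z) := by gcongr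
        linarith
      calc E ^ 2 * (F : ℝ) ^ 2 = 288 ^ 2 * (Z ^ 4 * ((F : ℝ) ^ 8 * Real.exp (3 * lam + u0 - Z) ^ 2)) := by
            rw [hE]; ring
        _ ≤ 288 ^ 2 * (Z ^ 4 * (Real.exp (8 * lam) * Real.exp (3 * lam + u0 - Z) ^ 2)) := by gcongr
        _ ≤ _ := by
            rw [e3]
            gcongr
    have e2 : 288 ^ 2 * (Z ^ 4 * (9 * Real.exp (-Z))) ≤ 1 / (Z ^ D) ^ 2 := by
      rw [le_div_iff₀ (by positivity)]
      calc 288 ^ 2 * (Z ^ 4 * (9 * Real.exp (-Z))) * (Z ^ D) ^ 2 =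
          288 ^ 2 * 9 * (Z ^ (4 + 2 * D) * Real.exp (-Z)) := by
            rw [pow_add Z 4 (2 * D), mul_comm 2 D, pow_mul]
            ring
        _ ≤ 1 := hE2
    linarith
  have hb2 : 2 * ((2 * Z) ^ 2 * M ^ 2) * ∑ f ∈ Finset.Ioc 1 F, ((f : ℝ) / Nat.totient f) * ∑ χ ∈ prim f,
        ∫ x, ‖bbC h (Finset.Ioc 0 N') (fun l : ℕ => χ l * ((aw w l / l : ℝ) : ℂ)) x‖ ^ 2 ≤
      128 * K ^ 2 * CL * (Z ^ 10 / (Z ^ D) ^ 2) := by
    calc _ ≤ 2 * ((2 * Z) ^ 2 * M ^ 2) * (CL * (2 * Z) ^ 4) :=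
          mul_le_mul_of_nonneg_left hls (by positivity)
      _ = _ := by
          rw [hMdef]
          field_simp
          ring
  have h4 : Z ^ 10 / (Z ^ D) ^ 2 * K3 ≤ 1 / Z ^ A := by
    calc Z ^ 10 / (Z ^ D) ^ 2 * K3 ≤ Z ^ 10 / (Z ^ D) ^ 2 * Z := by gcongr
      _ = Z ^ 11 / Z ^ (2 * A + 12) := by
          rw [← pow_mul, hD]
          rw [show (A + 6) * 2 = 2 * A + 12 by ring]
          ring
      _ ≤ 1 / Z ^ A := by
          rw [div_le_div_iff₀ (by positivity) (by positivity), one_mul, ← pow_add]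
          exact pow_le_pow_right₀ (by linarith) (by omega)
  have h7 : 1 / (Z ^ D) ^ 2 ≤ Z ^ 10 / (Z ^ D) ^ 2 := by
    gcongr
    exact one_le_pow₀ (by linarith)
  calc _ ≤ 2 * (Z ^ 10 / (Z ^ D) ^ 2) + 128 * K ^ 2 * CL * (Z ^ 10 / (Z ^ D) ^ 2) := by
        linarith
    _ = Z ^ 10 / (Z ^ D) ^ 2 * K3 := by rw [hK3]; ring
    _ ≤ _ := h4

end Pool.Agent.Q145.SZ
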