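import Pool.Agent.Q145.SZ.Stm2

set_option autoImplicit false

/-! # SZ job MBX: uniform bound of the transform under a zero-free hypothesis -/

open Complex Filter Topology Set MeasureTheory Metric
open scoped Real FourierTransform
open scoped ArithmeticFunction.vonMangoldt

namespace Pool.Agent.Q145.SZ

open Pool.Agent.W66 Pool.Agent.W66L

theorem t_MBX : S_MBX := by
  intro hPXB D
  obtain ⟨C, hC, hPE⟩ := hPXB
  refine ⟨C * 13 + 2, by positivity,
    fun Q _ χ hχ Z lam h ω T u hZ hZD' hlam1 hlam2 hQlam hh hω hω4 hT hzf hu1 hu2 hu3 ξ => ?_⟩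
  have hZ0 : 0 < Z := by linarith
  have hh0 : 0 < h := by rw [hh]; exact Real.exp_pos _
  have hsq1 : 1 ≤ √Z := by rw [Real.one_le_sqrt]; linarith
  have hlam0 : 1 ≤ lam := hsq1.trans hlam1
  have hZD0 : 0 < Z ^ D := by positivity
  have hZD1 : 1 ≤ Z ^ D := one_le_pow₀ (by linarith)
  have hZDD : Z ^ D ≤ Z ^ (D + 1) := pow_le_pow_right₀ (by linarith) (by omega)
  rcases le_or_gt |ξ| (Z ^ D / h) with hξ | hξ
  · have hpi := Real.pi_lt_d2
    have hpi0 := Real.pi_pos
    have e11 : |2 * π * ξ| + Z ^ D + 3 ≤ 11 * Z ^ D * Real.exp lam := by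
      have e2 : |2 * π * ξ| ≤ 7 * (Z ^ D * Real.exp lam) := by
        rw [abs_mul, abs_of_pos (by positivity : 0 < 2 * π)]
        have e3 : Z ^ D / h = Z ^ D * Real.exp lam := by
          rw [hh, Real.exp_neg]; field_simp
        rw [e3] at hξ
        have : 0 ≤ |ξ| := abs_nonneg _
        exact mul_le_mul (by linarith only [hpi]) hξ this (by norm_num)
      have e4 : 1 ≤ Real.exp lam := Real.one_le_exp (by linarith)
      have e5 : Z ^ D ≤ Z ^ D * Real.exp lam := le_mul_of_one_le_right hZD0.le e4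
      linarith
    have e12 : 11 * Z ^ D ≤ Real.exp lam := by
      have e3 : 11 * Z ^ (D + 1) ≤ Real.exp (√Z) := by
        rw [Real.exp_neg, ← div_eq_mul_inv, ← mul_div_assoc, div_le_one (Real.exp_pos _)] at hZD'
        exact hZD'
      exact (by linarith : 11 * Z ^ D ≤ 11 * Z ^ (D + 1)).trans (e3.trans (Real.exp_le_exp.2 hlam1))
    have e13 : |2 * π * ξ| + Z ^ D + 3 ≤ Real.exp (2 * lam) := by
      refine e11.trans ?_
      calc 11 * Z ^ D * Real.exp lam ≤ Real.exp lam * Real.exp lam := by gcongr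
        _ = Real.exp (2 * lam) := by rw [← Real.exp_add]; congr 1; ring
    have e14 : |2 * π * ξ| + Z ^ D + 2 ≤ T := by
      have : Real.exp (2 * lam) ≤ Real.exp (3 * lam) := Real.exp_le_exp.2 (by linarith)
      linarith
    have h1 := hPE Q χ hχ ω T hω hω4 hzf u (2 * π * ξ) (Z ^ D) hu1 hZD1 e14
    have hℓ2 : lq Q (|2 * π * ξ| + Z ^ D) ≤ 3 * Z := by
      have e3 : Real.log (|2 * π * ξ| + Z ^ D + 3) ≤ 2 * lam := by
        rw [Real.log_le_iff_le_exp (by positivity)]
        exact e13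
      unfold lq ell
      rw [abs_of_nonneg (show 0 ≤ |2 * π * ξ| + Z ^ D by positivity)]
      linarith
    have hlZ : 1 ≤ Real.log Z := by
      rw [Real.le_log_iff_exp_le hZ0]
      linarith [Real.exp_one_lt_d9]
    have hD0 : (0 : ℝ) ≤ D := Nat.cast_nonneg _
    have hωu : 2 ≤ ω * u := by
      have e1 : 2 * 1 * 1 ≤ 2 * (D + 1) * Real.log Z := by
        apply mul_le_mul _ hlZ zero_le_one (by positivity)
        linarith
      linarith
    have hlω : lq Q (|2 * π * ξ| + Z ^ D) / ω ≤ 3 * Z ^ 2 := by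
      rw [div_le_iff₀ hω]
      have e1 : 1 ≤ ω * Z := by
        have e2 : ω * u ≤ ω * (2 * Z) := mul_le_mul_of_nonneg_left (by linarith) hω.le
        linarith
      calc _ ≤ 3 * Z := hℓ2
        _ ≤ 3 * Z * (ω * Z) := le_mul_of_one_le_right (by positivity) e1
        _ = _ := by ring
    have hl0 : 0 ≤ lq Q (|2 * π * ξ| + Z ^ D) / ω :=
      div_nonneg (zero_le_one.trans (one_le_lq _ _)) hω.le
    have hexp : Real.exp (-(ω * u / 2)) ≤ 1 / Z ^ D := by
      have e2 : 1 / Z ^ D = Real.exp (-((D : ℝ) * Real.log Z)) := by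
        rw [Real.exp_neg, Real.exp_nat_mul, Real.exp_log hZ0, one_div]
      rw [e2]
      apply Real.exp_le_exp.2
      have e3 : 2 * (D : ℝ) * Real.log Z ≤ 2 * (D + 1) * Real.log Z := by gcongr; linarith
      linarith
    have h2 : lq Q (|2 * π * ξ| + Z ^ D) / ω * (Real.exp (-(ω * u / 2)) + 1 / (Z ^ D) ^ 2) +
        u / Z ^ D ≤ 13 * (Z ^ 2 / Z ^ D) := by
      have e2 : 1 / (Z ^ D) ^ 2 ≤ 1 / Z ^ D := by
        have : Z ^ D ≤ (Z ^ D) ^ 2 := by
          rw [sq]
          exact le_mul_of_one_le_left hZD0.le hZD1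
        exact one_div_le_one_div_of_le hZD0 this
      have e1 : lq Q (|2 * π * ξ| + Z ^ D) / ω * (Real.exp (-(ω * u / 2)) + 1 / (Z ^ D) ^ 2) ≤
          3 * Z ^ 2 * (1 / Z ^ D + 1 / Z ^ D) := by
        apply mul_le_mul hlω (add_le_add hexp e2) (by positivity) (by positivity)
      have e3 : u / Z ^ D ≤ 5 * Z ^ 2 / Z ^ D := by
        gcongr
        have h20 : 20 * Z ≤ Z * Z := mul_le_mul_of_nonneg_right hZ hZ0.le
        rw [sq]
        linarith only [h20, hu3, hZ]
      have e4 : 0 ≤ Z ^ 2 / Z ^ D := by positivity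
      calc _ ≤ 3 * Z ^ 2 * (1 / Z ^ D + 1 / Z ^ D) + 5 * Z ^ 2 / Z ^ D := by linarith
        _ = 11 * (Z ^ 2 / Z ^ D) := by ring
        _ ≤ _ := by linarith
    have h3 := norm_four_box_le_one hh0 ξ
    have h4 : 0 ≤ Z ^ 2 / Z ^ D := by positivity
    calc ‖PX χ u (2 * π * ξ)‖ * ‖𝓕 (boxC h) ξ‖ ≤
          (C * (13 * (Z ^ 2 / Z ^ D))) * 1 := by
          apply mul_le_mul _ h3 (norm_nonneg _) (by positivity)
          refine h1.trans ?_
          exact mul_le_mul_of_nonneg_left h2 hC.le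
      _ = C * 13 * (Z ^ 2 / Z ^ D) := by ring
      _ ≤ _ := by
          apply mul_le_mul_of_nonneg_right _ h4
          linarith
  · have hξ0 : ξ ≠ 0 := by
      intro h0
      rw [h0, abs_zero] at hξ
      have : 0 < Z ^ D / h := by positivity
      linarith
    have h1 := norm_four_box_le hh0 hξ0
    have h2 : 1 / (h * |ξ|) ≤ 1 / Z ^ D := by
      apply one_div_le_one_div_of_le hZD0
      rw [div_lt_iff₀ hh0] at hξ
      linarith
    have h3 := PX_triv χ hu1 ξ
    have h4 : (u + 1) * (u + 2) ≤ 2 * Z ^ 2 := by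
      have h20 : 20 * Z ≤ Z * Z := mul_le_mul_of_nonneg_right hZ hZ0.le
      calc (u + 1) * (u + 2) ≤ (Z + 5) * (Z + 6) :=
            mul_le_mul (by linarith only [hu3]) (by linarith only [hu3]) (by linarith only [hu1])
              (by linarith only [hZ])
        _ = Z * Z + 11 * Z + 30 := by ring
        _ ≤ 2 * (Z * Z) := by linarith only [h20, hZ]
        _ = _ := by ring
    have h5 : 0 ≤ Z ^ 2 / Z ^ D := by positivity
    calc ‖PX χ u (2 * π * ξ)‖ * ‖𝓕 (boxC h) ξ‖ ≤ (2 * Z ^ 2) * (1 / Z ^ D) := by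
          apply mul_le_mul (h3.trans h4) (h1.trans h2) (norm_nonneg _) (by positivity)
      _ = 2 * (Z ^ 2 / Z ^ D) := by ring
      _ ≤ _ := by
          apply mul_le_mul_of_nonneg_right _ h5
          have : 0 < C * 13 := by positivity
          linarith

end Pool.Agent.Q145.SZ
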