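import Pool.Agent.Q145.SZ.Stm2
import Pool.Agent.H336R2.V.Raman

set_option autoImplicit false

/-! # SZ job MODB: the model on the major arcs -/

namespace Pool.Agent.Q145.SZ

open Finset
open Pool.Agent.H807R2.Dav (ee)

namespace MB

open Pool.Agent.H807R2.Dav (ee_eq norm_ee ee_add ee_zero ee_int ee_add_int ee_pow dd dd_nonneg dd_add_int dd_ge)

lemma ex_eq (x : ℝ) : H343.ex x = ee x := by
  unfold H343.ex
  rw [ee_eq]

/-- Ramanujan sums as exponential sums -/
lemma rsum_eq (q u : ℕ) (hq : 1 ≤ q) : ((rsum q u : ℝ) : ℂ) =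
    ∑ r ∈ (range q).filter (fun r => r.Coprime q), ee (u * ((r : ℝ) / q)) := by
  have h1 := H336V.RamanAux.raman_eq q hq (u : ℤ)
  have h2 : ∑ n ∈ (range q).filter (fun n => n.Coprime q), H343.ex ((n : ℝ) * ((u : ℤ) : ℝ) / q) =
      ∑ r ∈ (range q).filter (fun r => r.Coprime q), ee (u * ((r : ℝ) / q)) := by
    apply sum_congr rfl
    intro r _
    rw [ex_eq]
    congr 1
    push_cast
    ring
  rw [← h2, h1]
  unfold rsum
  have h3 : ∀ d ∈ q.divisors, ((ArithmeticFunction.moebius d : ℤ) : ℂ) *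
        (if ((q / d : ℕ) : ℤ) ∣ (u : ℤ) then ((q / d : ℕ) : ℂ) else 0) =
      (fun e : ℕ => if e ∣ u then (e : ℂ) * ((ArithmeticFunction.moebius (q / e) : ℤ) : ℂ) else 0) (q / d) := by
    intro d hd
    rw [Nat.mem_divisors] at hd
    have h4 : q / (q / d) = d := Nat.div_div_self hd.1 hd.2
    simp only [h4, Int.natCast_dvd_natCast]
    split_ifs
    · ring
    · ring
  rw [sum_congr rfl h3, Nat.sum_div_divisors q (fun e : ℕ => if e ∣ u then
    (e : ℂ) * ((ArithmeticFunction.moebius (q / e) : ℤ) : ℂ) else 0), ← sum_filter]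
  push_cast
  rfl

/-- the divisor function `d [d | u]` -/
noncomputable def aU (u : ℕ) : ArithmeticFunction ℝ := ⟨fun d => if d ∣ u then (d : ℝ) else 0, by simp⟩

lemma aU_mult (u : ℕ) : (aU u).IsMultiplicative := by
  refine ⟨by simp [aU], fun {m n} hmn => ?_⟩
  change (if m * n ∣ u then ((m * n : ℕ) : ℝ) else 0) =
    (if m ∣ u then (m : ℝ) else 0) * (if n ∣ u then (n : ℝ) else 0)
  by_cases h1 : m ∣ u
  · by_cases h2 : n ∣ u
    · rw [if_pos h1, if_pos h2, if_pos (Nat.Coprime.mul_dvd_of_dvd_of_dvd hmn h1 h2)]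
      push_cast
      rfl
    · rw [if_neg h2, if_neg (fun h => h2 ((dvd_mul_left n m).trans h)), mul_zero]
  · rw [if_neg h1, if_neg (fun h => h1 ((dvd_mul_right m n).trans h)), zero_mul]

lemma rsum_conv (u q : ℕ) : rsum q u = (aU u * ((ArithmeticFunction.moebius : ArithmeticFunction ℤ) : ArithmeticFunction ℝ)) q := by
  rw [ArithmeticFunction.mul_apply, Nat.sum_divisorsAntidiagonal
    (f := fun x y => aU u x * ((ArithmeticFunction.moebius : ArithmeticFunction ℤ) : ArithmeticFunction ℝ) y)]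
  unfold rsum
  rw [sum_filter]
  apply sum_congr rfl
  intro d _
  rw [ArithmeticFunction.intCoe_apply]
  change _ = (if d ∣ u then (d : ℝ) else 0) * _
  split_ifs
  · rfl
  · rw [zero_mul]

/-- the summand of the model -/
noncomputable def gU (u : ℕ) : ArithmeticFunction ℝ :=
  ⟨fun V => ((ArithmeticFunction.moebius V : ℤ) : ℝ) / (Nat.totient V : ℝ) * rsum V u, by simp⟩

lemma gU_apply (u V : ℕ) : gU u V = ((ArithmeticFunction.moebius V : ℤ) : ℝ) / (Nat.totient V : ℝ) * rsum V u := rfl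

lemma gU_mult (u : ℕ) : (gU u).IsMultiplicative := by
  have hr : (aU u * ((ArithmeticFunction.moebius : ArithmeticFunction ℤ) : ArithmeticFunction ℝ)).IsMultiplicative :=
    (aU_mult u).mul ArithmeticFunction.isMultiplicative_moebius.intCast
  refine ⟨?_, fun {m n} hmn => ?_⟩
  · rw [gU_apply, rsum_conv, hr.map_one]
    simp
  · rw [gU_apply, gU_apply, gU_apply, rsum_conv, rsum_conv, rsum_conv, hr.map_mul_of_coprime hmn,
      ArithmeticFunction.isMultiplicative_moebius.map_mul_of_coprime hmn, Nat.totient_mul hmn]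
    push_cast
    rw [mul_div_mul_comm]
    ring

lemma gU_prime (u p : ℕ) (hp : p.Prime) : 1 + gU u p = if p ∣ u then 0 else (p : ℝ) / (p - 1) := by
  have hp1 : (1 : ℝ) < p := by exact_mod_cast hp.one_lt
  have hp0 : (p : ℝ) - 1 ≠ 0 := by linarith
  have h1 : rsum p u = (if p ∣ u then (p : ℝ) else 0) - 1 := by
    unfold rsum
    rw [sum_filter, hp.divisors, sum_pair hp.one_lt.ne, Nat.div_one, Nat.div_self hp.pos,
      ArithmeticFunction.moebius_apply_prime hp, ArithmeticFunction.moebius_apply_one,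
      if_pos (one_dvd _)]
    push_cast
    split_ifs <;> ring
  rw [gU_apply, h1, Nat.totient_prime hp, ArithmeticFunction.moebius_apply_prime hp,
    Nat.cast_sub hp.one_lt.le]
  push_cast
  split_ifs
  · field_simp
    ring
  · field_simp
    ring

lemma vv_eq (W : ℕ) (hW : Squarefree W) : vv W = ∏ p ∈ W.primeFactors, (p : ℝ) / (p - 1) := by
  have h1 := Nat.totient_mul_prod_primeFactors W
  have hW0 : W ≠ 0 := hW.ne_zero
  rw [Nat.prod_primeFactors_of_squarefree hW, mul_comm] at h1
  have h2 : Nat.totient W = ∏ p ∈ W.primeFactors, (p - 1) :=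
    Nat.eq_of_mul_eq_mul_left (Nat.pos_of_ne_zero hW0) h1
  have h3 : (Nat.totient W : ℝ) = ∏ p ∈ W.primeFactors, ((p : ℝ) - 1) := by
    rw [h2]
    push_cast
    apply prod_congr rfl
    intro p hp
    rw [Nat.cast_sub (Nat.prime_of_mem_primeFactors hp).one_lt.le, Nat.cast_one]
  have h4 : (W : ℝ) = ∏ p ∈ W.primeFactors, (p : ℝ) := by
    conv_lhs => rw [← Nat.prod_primeFactors_of_squarefree hW]
    push_cast
    rfl
  unfold vv
  rw [h3, prod_div_distrib, ← h4]

lemma sum_gU (W u : ℕ) (hW : Squarefree W) :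
    ∑ V ∈ W.divisors, gU u V = if u.Coprime W then vv W else 0 := by
  rw [← (gU_mult u).prodPrimeFactors_one_add_of_squarefree hW]
  split_ifs with h
  · rw [vv_eq W hW]
    apply prod_congr rfl
    intro p hp
    have hpp := Nat.prime_of_mem_primeFactors hp
    rw [gU_prime u p hpp, if_neg]
    intro hpu
    have h1 : p ∣ Nat.gcd u W := Nat.dvd_gcd hpu (Nat.dvd_of_mem_primeFactors hp)
    rw [h] at h1
    exact hpp.one_lt.ne' (Nat.dvd_one.1 h1)
  · obtain ⟨p, hp, h1⟩ := Nat.exists_prime_and_dvd (n := Nat.gcd u W) h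
    have hpW : p ∈ W.primeFactors := Nat.mem_primeFactors.2
      ⟨hp, h1.trans (Nat.gcd_dvd_right _ _), hW.ne_zero⟩
    apply prod_eq_zero hpW
    rw [gU_prime u p hp, if_pos (h1.trans (Nat.gcd_dvd_left _ _))]

/-- the index set of the expansion -/
def PI (W R : ℕ) : Finset (ℕ × ℕ) := W.divisors ×ˢ (Icc 1 R).filter (fun q => q.Coprime W)

lemma md_eq (W R u : ℕ) (hW : Squarefree W) : md W R u = ∑ p ∈ PI W R, gU u (p.1 * p.2) := by
  unfold PI
  rw [sum_product]
  have h1 : ∀ V ∈ W.divisors, ∑ q ∈ (Icc 1 R).filter (fun q => q.Coprime W), gU u (V * q) =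
      gU u V * ∑ q ∈ (Icc 1 R).filter (fun q => q.Coprime W), gU u q := by
    intro V hV
    rw [mul_sum]
    apply sum_congr rfl
    intro q hq
    rw [mem_filter] at hq
    exact (gU_mult u).map_mul_of_coprime (hq.2.symm.coprime_dvd_left (Nat.dvd_of_mem_divisors hV))
  rw [sum_congr rfl h1, ← sum_mul, sum_gU W u hW]
  unfold md
  split_ifs
  · rfl
  · rw [zero_mul]

/-- the geometric sum -/
noncomputable def GG (n n' : ℕ) (θ : ℝ) : ℂ := ∑ u ∈ Ioc n n', ee (u * θ)

lemma GG_add_int (n n' : ℕ) (θ : ℝ) (k : ℤ) : GG n n' (θ + k) = GG n n' θ := by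
  unfold GG
  apply sum_congr rfl
  intro u _
  rw [mul_add, ee_add]
  have : ((u : ℝ) * (k : ℝ)) = (((u : ℤ) * k : ℤ) : ℝ) := by push_cast; ring
  rw [this, ee_int, mul_one]

lemma GG_dd (n n' : ℕ) (θ : ℝ) : dd θ * ‖GG n n' θ‖ ≤ 2 := by
  rcases le_or_gt n n' with h | h
  · have h3 : (1 - ee θ) * GG n n' θ = ee θ ^ (n + 1) - ee θ ^ (n' + 1) := by
      have e1 : GG n n' θ = ∑ i ∈ Ico (n + 1) (n' + 1), ee θ ^ i := by
        unfold GG
        have : Ioc n n' = Ico (n + 1) (n' + 1) := by ext x; simp only [mem_Ioc, mem_Ico]; omega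
        rw [this]
        apply sum_congr rfl
        intro u _
        exact ee_pow θ u
      rw [e1]
      have := geom_sum_Ico_mul (ee θ) (by omega : n + 1 ≤ n' + 1)
      linear_combination -this
    have h4 : dd θ * ‖GG n n' θ‖ = ‖ee θ ^ (n + 1) - ee θ ^ (n' + 1)‖ := by
      rw [← h3, norm_mul]; rfl
    rw [h4]
    refine (norm_sub_le _ _).trans ?_
    rw [norm_pow, norm_pow, norm_ee]
    norm_num
  · have : GG n n' θ = 0 := by
      unfold GG
      rw [Ioc_eq_empty (by omega), sum_empty]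
    rw [this, norm_zero, mul_zero]
    norm_num

/-- a lower bound for `dd` from the distance to all integers -/
lemma dd_of_dist {x δ : ℝ} (h : ∀ k : ℤ, δ ≤ |x - k|) : 4 * δ ≤ dd x := by
  have h1 := h ⌊x⌋
  have h2 := h (⌊x⌋ + 1)
  have h3 : x = Int.fract x + (⌊x⌋ : ℤ) := (Int.fract_add_floor x).symm
  have h4 := Int.fract_nonneg x
  have h5 := (Int.fract_lt_one x).le
  have h6 : |x - (⌊x⌋ : ℝ)| = Int.fract x := by
    rw [abs_of_nonneg (by linarith)]
    linarith
  have h7 : |x - ((⌊x⌋ + 1 : ℤ) : ℝ)| = 1 - Int.fract x := by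
    push_cast
    rw [abs_of_nonpos (by linarith)]
    linarith
  rw [h6] at h1
  rw [h7] at h2
  rw [h3, dd_add_int]
  refine le_trans ?_ (dd_ge h4 h5)
  have : δ ≤ min (Int.fract x) (1 - Int.fract x) := le_min h1 h2
  linarith

lemma GG_dist {n n' : ℕ} {x δ : ℝ} (hδ : 0 < δ) (h : ∀ k : ℤ, δ ≤ |x - k|) : ‖GG n n' x‖ ≤ 1 / (2 * δ) := by
  have h1 := dd_of_dist h
  have h2 := GG_dd n n' x
  rw [le_div_iff₀ (by positivity)]
  have h3 : 4 * δ * ‖GG n n' x‖ ≤ dd x * ‖GG n n' x‖ := mul_le_mul_of_nonneg_right h1 (norm_nonneg _)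
  linarith

/-- the contribution of the denominator `D` -/
noncomputable def TT (n n' : ℕ) (α : ℝ) (D : ℕ) : ℂ :=
  (((ArithmeticFunction.moebius D : ℤ) : ℂ) / (Nat.totient D : ℂ)) *
    ∑ r ∈ (range D).filter (fun r => r.Coprime D), GG n n' (α + (r : ℝ) / D)

lemma sum_md (W R n n' : ℕ) (α : ℝ) (hW : Squarefree W) :
    ∑ u ∈ Ioc n n', ((md W R u : ℝ) : ℂ) * ee (u * α) = ∑ p ∈ PI W R, TT n n' α (p.1 * p.2) := by
  have h1 : ∀ u ∈ Ioc n n', ((md W R u : ℝ) : ℂ) * ee (u * α) =
      ∑ p ∈ PI W R, (((ArithmeticFunction.moebius (p.1 * p.2) : ℤ) : ℂ) / (Nat.totient (p.1 * p.2) : ℂ)) *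
        ∑ r ∈ (range (p.1 * p.2)).filter (fun r => r.Coprime (p.1 * p.2)),
          ee (u * (α + (r : ℝ) / (p.1 * p.2 : ℕ))) := by
    intro u _
    rw [md_eq W R u hW, Complex.ofReal_sum, sum_mul]
    apply sum_congr rfl
    intro p hp
    unfold PI at hp
    rw [mem_product, mem_filter, mem_Icc] at hp
    have hD : 1 ≤ p.1 * p.2 := Nat.mul_pos (Nat.pos_of_mem_divisors hp.1) hp.2.1.1
    rw [gU_apply, Complex.ofReal_mul, rsum_eq _ u hD, mul_assoc, sum_mul]
    push_cast
    congr 1
    apply sum_congr rfl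
    intro r _
    rw [← ee_add]
    congr 1
    ring
  rw [sum_congr rfl h1, sum_comm]
  apply sum_congr rfl
  intro p _
  unfold TT GG
  rw [← mul_sum, sum_comm]

lemma card_cop (D : ℕ) : ((range D).filter (fun r => r.Coprime D)).card = Nat.totient D := by
  rw [Nat.totient_eq_card_coprime]
  congr 1
  refine filter_congr fun b _ => ?_
  exact Nat.coprime_comm

/-- the contribution of a denominator up to the main term -/
lemma TT_bound {q r n n' D : ℕ} {β B : ℝ} (hq : 1 ≤ q) (hr : r.Coprime q) (hD : 1 ≤ D) (hB : 0 < B)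
    (hBD : (q : ℝ) * D ≤ B) (hβ : 2 * B * |β| ≤ 1) :
    ‖TT n n' ((r : ℝ) / q + β) D - (if D = q then
      (((ArithmeticFunction.moebius q : ℤ) : ℂ) / (Nat.totient q : ℂ)) * GG n n' β else 0)‖ ≤ B := by
  have hq0 : (0 : ℝ) < q := by exact_mod_cast hq
  have hD0 : (0 : ℝ) < D := by exact_mod_cast hD
  -- the terms
  have hterm : ∀ s ∈ (range D).filter (fun s => s.Coprime D),
      ‖GG n n' ((r : ℝ) / q + β + (s : ℝ) / D) - (if D = q ∧ D ∣ r + s then GG n n' β else 0)‖ ≤ B := by
    intro s hs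
    rw [mem_filter, mem_range] at hs
    split_ifs with h
    · obtain ⟨h1, h2⟩ := h
      obtain ⟨k, hk⟩ := h2
      have h3 : (r : ℝ) / q + β + (s : ℝ) / D = β + ((k : ℤ) : ℝ) := by
        have h4 : (r : ℝ) + s = D * k := by exact_mod_cast hk
        rw [← h1]
        field_simp
        push_cast
        linarith
      rw [h3, GG_add_int, sub_self, norm_zero]
      exact hB.le
    · rw [sub_zero]
      have hdist : ∀ k : ℤ, 1 / (2 * B) ≤ |(r : ℝ) / q + β + (s : ℝ) / D - k| := by
        intro k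
        have h1 : (r : ℤ) * D + s * q - k * (q * D) ≠ 0 := by
          intro h0
          apply h
          have h2 : (D : ℤ) ∣ s * q := ⟨k * q - r, by linear_combination h0⟩
          have h3 : D ∣ s * q := by exact_mod_cast h2
          have h4 : D ∣ q := hs.2.symm.dvd_of_dvd_mul_left h3
          have h5 : (q : ℤ) ∣ r * D := ⟨k * D - s, by linear_combination h0⟩
          have h6 : q ∣ r * D := by exact_mod_cast h5
          have h7 : q ∣ D := hr.symm.dvd_of_dvd_mul_left h6
          have h8 : D = q := Nat.dvd_antisymm h4 h7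
          refine ⟨h8, ?_⟩
          have h9 : (D : ℤ) * (r + s) = D * (D * k) := by
            rw [← h8] at h0
            linear_combination h0
          have hDz : (D : ℤ) ≠ 0 := by omega
          have h10 : ((r : ℤ) + s) = D * k := mul_left_cancel₀ hDz h9
          have h11 : (D : ℤ) ∣ ((r + s : ℕ) : ℤ) := ⟨k, by push_cast; exact h10⟩
          exact_mod_cast h11
        have h2 : (1 : ℝ) ≤ |(((r : ℤ) * D + s * q - k * (q * D) : ℤ) : ℝ)| := by
          rw [← Int.cast_abs]
          exact_mod_cast Int.one_le_abs h1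
        have h3 : (r : ℝ) / q + (s : ℝ) / D - k = (((r : ℤ) * D + s * q - k * (q * D) : ℤ) : ℝ) / (q * D) := by
          push_cast
          field_simp
        have h4 : 1 / B ≤ |(r : ℝ) / q + (s : ℝ) / D - k| := by
          rw [h3, abs_div, abs_of_pos (by positivity : (0 : ℝ) < q * D)]
          rw [div_le_div_iff₀ hB (by positivity), one_mul]
          calc (q : ℝ) * D ≤ B := hBD
            _ ≤ _ := le_mul_of_one_le_left hB.le h2
        have h5 : |β| ≤ 1 / (2 * B) := by
          rw [le_div_iff₀ (by positivity)]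
          linarith
        have h6 : |(r : ℝ) / q + (s : ℝ) / D - k| ≤ |(r : ℝ) / q + β + (s : ℝ) / D - k| + |β| := by
          have : (r : ℝ) / q + (s : ℝ) / D - k = ((r : ℝ) / q + β + (s : ℝ) / D - k) - β := by ring
          rw [this]
          exact abs_sub _ _
        have h7 : 1 / B = 1 / (2 * B) + 1 / (2 * B) := by field_simp; norm_num
        linarith
      have h1 := GG_dist (n := n) (n' := n') (by positivity : 0 < 1 / (2 * B)) hdist
      refine h1.trans (le_of_eq ?_)
      field_simp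
  -- the exceptional fraction
  have hmain : ∑ s ∈ (range D).filter (fun s => s.Coprime D),
      (if D = q ∧ D ∣ r + s then GG n n' β else 0) = if D = q then GG n n' β else 0 := by
    by_cases hDq : D = q
    · subst hDq
      simp only [true_and, if_true]
      obtain ⟨s₀, hs₀⟩ : ∃ s₀, s₀ = (D - r % D) % D := ⟨_, rfl⟩
      have hs1 : s₀ < D := by rw [hs₀]; exact Nat.mod_lt _ (by omega)
      have hdv : D ∣ r + s₀ := by
        have h1 : r % D < D := Nat.mod_lt _ (by omega)
        rw [Nat.dvd_iff_mod_eq_zero, Nat.add_mod, hs₀, Nat.mod_mod, ← Nat.add_mod]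
        have h2 : r + (D - r % D) = D * (r / D) + D := by
          have := Nat.div_add_mod r D
          omega
        rw [h2, show D * (r / D) + D = D * (r / D + 1) by ring, Nat.mul_mod_right]
      have hcop : s₀.Coprime D := by
        rw [Nat.coprime_iff_gcd_eq_one]
        by_contra hne
        obtain ⟨p, hp, h1⟩ := Nat.exists_prime_and_dvd hne
        have h2 : p ∣ s₀ := h1.trans (Nat.gcd_dvd_left _ _)
        have h3 : p ∣ D := h1.trans (Nat.gcd_dvd_right _ _)
        have h4 : p ∣ r := (Nat.dvd_add_left h2).1 (h3.trans hdv)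
        have h5 : p ∣ Nat.gcd r D := Nat.dvd_gcd h4 h3
        rw [hr] at h5
        exact hp.one_lt.ne' (Nat.dvd_one.1 h5)
      rw [sum_eq_single s₀]
      · rw [if_pos hdv]
      · intro s hs hne
        rw [mem_filter, mem_range] at hs
        rw [if_neg]
        intro h1
        apply hne
        have h2 : s % D = s₀ % D := by
          have h3 : (r + s) ≡ (r + s₀) [MOD D] :=
            (Nat.modEq_zero_iff_dvd.2 h1).trans (Nat.modEq_zero_iff_dvd.2 hdv).symm
          exact Nat.ModEq.add_left_cancel' r h3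
        rwa [Nat.mod_eq_of_lt hs.1, Nat.mod_eq_of_lt hs1] at h2
      · intro h1
        exact absurd (mem_filter.2 ⟨mem_range.2 hs1, hcop⟩) h1
    · rw [if_neg hDq]
      apply sum_eq_zero
      intro s _
      rw [if_neg (fun h => hDq h.1)]
  have hsplit : TT n n' ((r : ℝ) / q + β) D - (if D = q then
      (((ArithmeticFunction.moebius q : ℤ) : ℂ) / (Nat.totient q : ℂ)) * GG n n' β else 0) =
      (((ArithmeticFunction.moebius D : ℤ) : ℂ) / (Nat.totient D : ℂ)) *
        ∑ s ∈ (range D).filter (fun s => s.Coprime D),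
          (GG n n' ((r : ℝ) / q + β + (s : ℝ) / D) - (if D = q ∧ D ∣ r + s then GG n n' β else 0)) := by
    rw [sum_sub_distrib, hmain, mul_sub]
    unfold TT
    congr 1
    by_cases hDq : D = q
    · rw [if_pos hDq, if_pos hDq, hDq]
    · rw [if_neg hDq, if_neg hDq, mul_zero]
  rw [hsplit, norm_mul, norm_div, Complex.norm_natCast]
  have h1 : ‖((ArithmeticFunction.moebius D : ℤ) : ℂ)‖ ≤ 1 := by
    rw [Complex.norm_intCast]
    exact_mod_cast ArithmeticFunction.abs_moebius_le_one
  have h2 : (0 : ℝ) < Nat.totient D := by exact_mod_cast Nat.totient_pos.2 (by omega)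
  have h3 : ‖∑ s ∈ (range D).filter (fun s => s.Coprime D),
          (GG n n' ((r : ℝ) / q + β + (s : ℝ) / D) - (if D = q ∧ D ∣ r + s then GG n n' β else 0))‖ ≤
      Nat.totient D * B := by
    refine (norm_sum_le_of_le _ hterm).trans ?_
    rw [sum_const, card_cop, nsmul_eq_mul]
  calc _ ≤ 1 / (Nat.totient D : ℝ) * (Nat.totient D * B) := by
        apply mul_le_mul _ h3 (norm_nonneg _) (by positivity)
        exact div_le_div_of_nonneg_right h1 h2.le
    _ = B := by field_simp

end MB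

open MB in
theorem t_MODB : S_MODB := by
  intro W R q r n n' β hW hR hq hqR hr hβ
  have hW0 : W ≠ 0 := hW.ne_zero
  have hW1 : (1 : ℝ) ≤ W := by exact_mod_cast Nat.one_le_iff_ne_zero.2 hW0
  have hR1 : (1 : ℝ) ≤ R := by exact_mod_cast hR
  have hqR1 : (q : ℝ) ≤ R := by exact_mod_cast hqR
  rw [sum_md W R n n' _ hW]
  change ‖_ - _ * GG n n' β‖ ≤ _
  have hsum : (((ArithmeticFunction.moebius q : ℤ) : ℂ) / (Nat.totient q : ℂ)) * GG n n' β =
      ∑ p ∈ PI W R, (if p.1 * p.2 = q then
        (((ArithmeticFunction.moebius q : ℤ) : ℂ) / (Nat.totient q : ℂ)) * GG n n' β else 0) := by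
    by_cases hsq : Squarefree q
    · obtain ⟨V, hV⟩ : ∃ V, V = Nat.gcd q W := ⟨_, rfl⟩
      have hVq : V ∣ q := hV ▸ Nat.gcd_dvd_left _ _
      have hVW : V ∣ W := hV ▸ Nat.gcd_dvd_right _ _
      have hV0 : 0 < V := Nat.pos_of_dvd_of_pos hVq hq
      obtain ⟨e, he⟩ := hVq
      have hcop : e.Coprime W := by
        rw [Nat.coprime_iff_gcd_eq_one]
        by_contra hne
        obtain ⟨p, hp, h1⟩ := Nat.exists_prime_and_dvd hne
        have h2 : p ∣ e := h1.trans (Nat.gcd_dvd_left _ _)
        have h3 : p ∣ W := h1.trans (Nat.gcd_dvd_right _ _)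
        have h4 : p ∣ V := by rw [hV]; exact Nat.dvd_gcd (he ▸ h2.mul_left V) h3
        have h5 : p * p ∣ q := he ▸ Nat.mul_dvd_mul h4 h2
        exact hp.one_lt.ne' (Nat.isUnit_iff.1 (hsq p h5))
      have he0 : 1 ≤ e := by
        rcases Nat.eq_zero_or_pos e with h | h
        · rw [h, mul_zero] at he; omega
        · exact h
      rw [sum_eq_single (V, e)]
      · rw [if_pos he.symm]
      · intro p hp hne
        rw [if_neg]
        intro h1
        apply hne
        unfold PI at hp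
        rw [mem_product, mem_filter, mem_Icc] at hp
        have h2 : p.1 = V := by
          rw [hV, ← h1]
          have h3 : Nat.gcd (p.1 * p.2) W = Nat.gcd p.1 W := Nat.Coprime.gcd_mul_right_cancel p.1 hp.2.2
          rw [h3]
          exact (Nat.gcd_eq_left (Nat.dvd_of_mem_divisors hp.1)).symm
        have h4 : p.2 = e := by
          rw [h2, he] at h1
          exact Nat.eq_of_mul_eq_mul_left hV0 h1
        exact Prod.ext h2 h4
      · intro h1
        exfalso
        apply h1
        unfold PI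
        rw [mem_product, mem_filter, mem_Icc]
        refine ⟨Nat.mem_divisors.2 ⟨hVW, hW0⟩, ⟨he0, ?_⟩, hcop⟩
        refine le_trans ?_ hqR
        rw [he]
        exact Nat.le_mul_of_pos_left _ hV0
    · rw [ArithmeticFunction.moebius_eq_zero_of_not_squarefree hsq]
      simp
  rw [hsum, ← sum_sub_distrib]
  have hB : ∀ p ∈ PI W R, ‖TT n n' ((r : ℝ) / q + β) (p.1 * p.2) - (if p.1 * p.2 = q then
        (((ArithmeticFunction.moebius q : ℤ) : ℂ) / (Nat.totient q : ℂ)) * GG n n' β else 0)‖ ≤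
      (W : ℝ) * R ^ 2 := by
    intro p hp
    unfold PI at hp
    rw [mem_product, mem_filter, mem_Icc] at hp
    have h1 : (p.1 : ℝ) ≤ W := by exact_mod_cast Nat.le_of_dvd (Nat.pos_of_ne_zero hW0) (Nat.dvd_of_mem_divisors hp.1)
    have h2 : (p.2 : ℝ) ≤ R := by exact_mod_cast hp.2.1.2
    apply TT_bound hq hr (Nat.mul_pos (Nat.pos_of_mem_divisors hp.1) hp.2.1.1) (by positivity)
    · push_cast
      calc (q : ℝ) * (p.1 * p.2) ≤ R * (W * R) := by gcongr
        _ = _ := by ring
    · linarith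
  refine (norm_sum_le_of_le _ hB).trans ?_
  rw [sum_const, nsmul_eq_mul]
  have hcard : ((PI W R).card : ℝ) ≤ W * R := by
    unfold PI
    rw [card_product, Nat.cast_mul]
    apply mul_le_mul _ _ (Nat.cast_nonneg _) (by positivity)
    · exact_mod_cast Nat.card_divisors_le_self W
    · have : ((Icc 1 R).filter (fun q => q.Coprime W)).card ≤ (Icc 1 R).card := card_filter_le _ _
      rw [Nat.card_Icc, Nat.add_sub_cancel] at this
      exact_mod_cast this
  calc ((PI W R).card : ℝ) * (W * R ^ 2) ≤ (W * R) * (W * R ^ 2) := by gcongr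
    _ = _ := by ring

end Pool.Agent.Q145.SZ
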