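import Pool.Agent.Q145.SZ.Stm2

set_option autoImplicit false

/-! # SZ job MS: mean squares over short arcs, all primitive characters -/

open Complex Filter Topology Set MeasureTheory Metric
open scoped Real FourierTransform

namespace Pool.Agent.Q145.SZ

open Pool.Agent.W66 Pool.Agent.W66L
open Pool.Agent.H807R2.Dav (ee norm_ee ee_zero)

namespace MSA

lemma mem_prim {f : ℕ} {χ : DirichletCharacter ℂ f} : χ ∈ prim f ↔ χ.IsPrimitive := by
  classical
  unfold prim
  rw [Finset.mem_filter]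
  exact ⟨fun h => h.2, fun h => ⟨Finset.mem_univ _, h⟩⟩

lemma card_prim (f : ℕ) [NeZero f] : ((prim f).card : ℝ) ≤ Nat.totient f := by
  classical
  have h2 : (prim f).card ≤ Fintype.card (DirichletCharacter ℂ f) := Finset.card_le_univ _
  have h3 : Fintype.card (DirichletCharacter ℂ f) = Nat.totient f := by
    rw [← Nat.card_eq_fintype_card,
      DirichletCharacter.card_eq_totient_of_hasEnoughRootsOfUnity ℂ f]
  rw [h3] at h2
  exact_mod_cast h2

lemma weight_sum (F : ℕ) : ∑ f ∈ Finset.Icc 1 F, ((f : ℝ) / Nat.totient f) * ((prim f).card : ℝ) ≤ (F : ℝ) ^ 2 := by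
  have h1 : ∀ f ∈ Finset.Icc 1 F, ((f : ℝ) / Nat.totient f) * ((prim f).card : ℝ) ≤ F := by
    intro f hf
    rw [Finset.mem_Icc] at hf
    have : NeZero f := ⟨by omega⟩
    have h2 : (0 : ℝ) < Nat.totient f := by exact_mod_cast Nat.totient_pos.2 (by omega)
    calc _ ≤ ((f : ℝ) / Nat.totient f) * (Nat.totient f : ℝ) :=
          mul_le_mul_of_nonneg_left (card_prim f) (by positivity)
      _ = f := by field_simp
      _ ≤ F := by exact_mod_cast hf.2
  refine (Finset.sum_le_sum h1).trans ?_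
  rw [Finset.sum_const, Nat.card_Icc, nsmul_eq_mul, Nat.add_sub_cancel, sq]

/-- summation over the characters -/
lemma char_sum (F : ℕ) {a b : ℝ} (I D : (f : ℕ) → DirichletCharacter ℂ f → ℝ) (hb : 0 ≤ b)
    (hD : ∀ f ∈ Finset.Icc 1 F, ∀ χ ∈ prim f, D f χ ≤ a * I f χ + b) :
    ∑ f ∈ Finset.Icc 1 F, ((f : ℝ) / Nat.totient f) * ∑ χ ∈ prim f, D f χ ≤
      a * (∑ f ∈ Finset.Icc 1 F, ((f : ℝ) / Nat.totient f) * ∑ χ ∈ prim f, I f χ) + b * (F : ℝ) ^ 2 := by
  have h1 : ∑ f ∈ Finset.Icc 1 F, ((f : ℝ) / Nat.totient f) * ∑ χ ∈ prim f, D f χ ≤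
      a * (∑ f ∈ Finset.Icc 1 F, ((f : ℝ) / Nat.totient f) * ∑ χ ∈ prim f, I f χ) +
      b * (∑ f ∈ Finset.Icc 1 F, ((f : ℝ) / Nat.totient f) * ((prim f).card : ℝ)) := by
    rw [Finset.mul_sum, Finset.mul_sum, ← Finset.sum_add_distrib]
    apply Finset.sum_le_sum
    intro f hf
    have h2 : ∑ χ ∈ prim f, D f χ ≤ a * (∑ χ ∈ prim f, I f χ) + b * ((prim f).card : ℝ) := by
      have h3 : b * ((prim f).card : ℝ) = ∑ _χ ∈ prim f, b := by
        rw [Finset.sum_const, nsmul_eq_mul, mul_comm]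
      rw [h3, Finset.mul_sum, ← Finset.sum_add_distrib]
      exact Finset.sum_le_sum fun χ hχ => hD f hf χ hχ
    calc _ ≤ ((f : ℝ) / Nat.totient f) * (a * (∑ χ ∈ prim f, I f χ) + b * ((prim f).card : ℝ)) :=
          mul_le_mul_of_nonneg_left h2 (by positivity)
      _ = _ := by ring
  refine h1.trans ?_
  have := mul_le_mul_of_nonneg_left (weight_sum F) hb
  linarith

lemma ee_cont : Continuous ee := by
  unfold ee
  fun_prop

/-- the main term -/
noncomputable def kpp (f : ℕ) : ℂ := if f = 1 then 1 else 0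

/-- the character sum with the von Mangoldt function -/
noncomputable def SC {f : ℕ} (χ : DirichletCharacter ℂ f) (n n' : ℕ) (β : ℝ) : ℂ :=
  ∑ u ∈ Finset.Ioc n n', (((ArithmeticFunction.vonMangoldt u : ℝ) : ℂ) * χ u - kpp f) * ee (u * β)

lemma SC_cont {f : ℕ} (χ : DirichletCharacter ℂ f) (n n' : ℕ) : Continuous (SC χ n n') := by
  unfold SC
  apply continuous_finsetSum
  intro u _
  exact continuous_const.mul (ee_cont.comp (by fun_prop))

lemma DC_cont {f : ℕ} (χ : DirichletCharacter ℂ f) (n n' : ℕ) : Continuous (DC χ n n') := by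
  unfold DC
  apply continuous_finsetSum
  intro u _
  exact continuous_const.mul (ee_cont.comp (by fun_prop))

/-- the contribution of prime powers -/
lemma DC_sub {f : ℕ} (χ : DirichletCharacter ℂ f) {X n n' : ℕ} (hX : 3 ≤ X) (hn : n' ≤ 3 * X) (β : ℝ) :
    ‖DC χ n n' β - SC χ n n' β‖ ≤ 8 * (√(X : ℝ) * Real.log X) := by
  have hXr : (3 : ℝ) ≤ X := by exact_mod_cast hX
  have h1 : DC χ n n' β - SC χ n n' β =
      ∑ u ∈ Finset.Ioc n n', (((wt u - ArithmeticFunction.vonMangoldt u : ℝ)) : ℂ) * χ u * ee (u * β) := by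
    unfold DC SC kpp
    rw [← Finset.sum_sub_distrib]
    apply Finset.sum_congr rfl
    intro u _
    push_cast
    ring
  have h2 : ∀ u : ℕ, ‖(((wt u - ArithmeticFunction.vonMangoldt u : ℝ)) : ℂ) * χ u * ee (u * β)‖ ≤
      if ¬ u.Prime then ArithmeticFunction.vonMangoldt u else 0 := by
    intro u
    rw [norm_mul, norm_mul, norm_ee, mul_one, Complex.norm_real, Real.norm_eq_abs]
    have h3 := χ.norm_le_one (u : ZMod f)
    have h4 : |wt u - ArithmeticFunction.vonMangoldt u| =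
        if ¬ u.Prime then ArithmeticFunction.vonMangoldt u else 0 := by
      unfold wt
      by_cases hp : u.Prime
      · rw [if_pos hp, if_neg (not_not.2 hp), ArithmeticFunction.vonMangoldt_apply_prime hp]
        simp
      · rw [if_neg hp, if_pos hp, zero_sub, abs_neg,
          abs_of_nonneg ArithmeticFunction.vonMangoldt_nonneg]
    rw [h4]
    apply mul_le_of_le_one_right _ h3
    split_ifs <;> first | exact ArithmeticFunction.vonMangoldt_nonneg | exact le_rfl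
  rw [h1]
  refine (norm_sum_le_of_le _ fun u _ => h2 u).trans ?_
  have h3 : ∑ u ∈ Finset.Ioc n n', (if ¬ u.Prime then ArithmeticFunction.vonMangoldt u else 0) ≤
      ∑ u ∈ Finset.Ioc 0 (3 * X), (if ¬ u.Prime then ArithmeticFunction.vonMangoldt u else 0) := by
    apply Finset.sum_le_sum_of_subset_of_nonneg
    · apply Finset.Ioc_subset_Ioc (Nat.zero_le _) hn
    · intro u _ _
      split_ifs <;> first | exact ArithmeticFunction.vonMangoldt_nonneg | exact le_rfl
  refine h3.trans ?_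
  rw [← Finset.sum_filter]
  have h4 := Chebyshev.psi_sub_theta_eq_sum_not_prime ((3 * X : ℕ) : ℝ)
  rw [Nat.floor_natCast] at h4
  rw [← h4]
  have h5 := Chebyshev.abs_psi_sub_theta_le_sqrt_mul_log (x := ((3 * X : ℕ) : ℝ)) (by push_cast; linarith)
  refine (le_abs_self _).trans (h5.trans ?_)
  push_cast
  have h6 : √(3 * (X : ℝ)) ≤ 2 * √(X : ℝ) := by
    rw [Real.sqrt_le_left (by positivity), mul_pow, Real.sq_sqrt (by positivity)]
    linarith
  have h7 : Real.log (3 * (X : ℝ)) ≤ 2 * Real.log X := by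
    have : Real.log (3 * (X : ℝ)) ≤ Real.log ((X : ℝ) ^ 2) := by
      apply Real.log_le_log (by positivity)
      nlinarith
    rw [Real.log_pow] at this
    exact_mod_cast this
  have h8 : 0 ≤ Real.log (3 * (X : ℝ)) := Real.log_nonneg (by linarith)
  calc 2 * √(3 * (X : ℝ)) * Real.log (3 * (X : ℝ)) ≤ 2 * (2 * √(X : ℝ)) * (2 * Real.log X) := by gcongr
    _ = _ := by ring

lemma sq_bound {f : ℕ} (χ : DirichletCharacter ℂ f) {X n n' : ℕ} (hX : 3 ≤ X) (hn : n' ≤ 3 * X) (β : ℝ) :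
    ‖DC χ n n' β‖ ^ 2 ≤ 2 * ‖SC χ n n' β‖ ^ 2 + 128 * (X * Real.log X ^ 2) := by
  have h1 := DC_sub χ (n := n) hX hn β
  have h2 : ‖DC χ n n' β‖ ≤ ‖SC χ n n' β‖ + 8 * (√(X : ℝ) * Real.log X) := by
    have : DC χ n n' β = SC χ n n' β + (DC χ n n' β - SC χ n n' β) := by ring
    rw [this]
    exact (norm_add_le _ _).trans (add_le_add le_rfl h1)
  have h3 : (0 : ℝ) ≤ X := Nat.cast_nonneg _
  have h4 : (8 * (√(X : ℝ) * Real.log X)) ^ 2 = 64 * (X * Real.log X ^ 2) := by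
    rw [mul_pow, mul_pow, Real.sq_sqrt h3]; norm_num
  have h5 : ‖DC χ n n' β‖ ^ 2 ≤ (‖SC χ n n' β‖ + 8 * (√(X : ℝ) * Real.log X)) ^ 2 := by gcongr
  nlinarith [sq_nonneg (‖SC χ n n' β‖ - 8 * (√(X : ℝ) * Real.log X))]

lemma int_bound {f : ℕ} (χ : DirichletCharacter ℂ f) {X n n' : ℕ} (hX : 3 ≤ X) (hn : n' ≤ 3 * X) {B : ℝ}
    (hB : 0 ≤ B) : ∫ β in (-B)..B, ‖DC χ n n' β‖ ^ 2 ≤
      2 * (∫ β in (-B)..B, ‖SC χ n n' β‖ ^ 2) + 256 * (B * (X * Real.log X ^ 2)) := by
  have h1 : ∫ β in (-B)..B, ‖DC χ n n' β‖ ^ 2 ≤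
      ∫ β in (-B)..B, (2 * ‖SC χ n n' β‖ ^ 2 + 128 * (X * Real.log X ^ 2)) := by
    apply intervalIntegral.integral_mono_on (by linarith)
    · exact ((DC_cont χ n n').norm.pow 2).intervalIntegrable _ _
    · exact ((((SC_cont χ n n').norm.pow 2).const_mul 2).add continuous_const).intervalIntegrable _ _
    · intro β _
      exact sq_bound χ hX hn β
  have h2 : IntervalIntegrable (fun β => 2 * ‖SC χ n n' β‖ ^ 2) volume (-B) B :=
    (((SC_cont χ n n').norm.pow 2).const_mul 2).intervalIntegrable _ _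
  rw [intervalIntegral.integral_add h2 intervalIntegrable_const, intervalIntegral.integral_const_mul, intervalIntegral.integral_const,
    smul_eq_mul] at h1
  refine h1.trans (le_of_eq ?_)
  ring

/-- eventual inequalities -/
lemma ev (A : ℕ) (C C₁ c0 Z1 : ℝ) (hc0 : 0 < c0) : ∀ᶠ L : ℝ in atTop, 10 ≤ L ∧ Z1 ≤ L ∧ 2 * C₁ * √L ≤ L ∧
    4 * Real.log L ≤ c0 * √L ∧ 32 * C ≤ L ∧ 8 * C * (L ^ (2 + A) * Real.exp (-(2 * √L))) ≤ 1 / 4 ∧
    256 * (L ^ (2 + A) * Real.exp (-(L / 2))) ≤ 1 / 4 := by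
  have hs := Real.tendsto_sqrt_atTop
  have e1 : ∀ᶠ L : ℝ in atTop, 2 * C₁ ≤ √L := hs.eventually_ge_atTop _
  have e2 : ∀ᶠ L : ℝ in atTop, 4 * Real.log L ≤ c0 * √L := by
    have h1 := (isLittleO_log_rpow_atTop (r := 1 / 2) (by norm_num)).bound (c := c0 / 4) (by positivity)
    filter_upwards [h1, eventually_ge_atTop 1] with L h2 h3
    rw [Real.norm_of_nonneg (Real.log_nonneg h3), Real.norm_of_nonneg (by positivity),
      ← Real.sqrt_eq_rpow] at h2
    linarith
  have e3 : ∀ᶠ L : ℝ in atTop, 8 * C * (L ^ (2 + A) * Real.exp (-(2 * √L))) ≤ 1 / 4 := by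
    have h1 := ((Real.tendsto_pow_mul_exp_neg_atTop_nhds_zero (2 * (2 + A))).comp hs).const_mul (8 * |C|)
    rw [mul_zero] at h1
    have h2 := h1.eventually_le_const (show (0 : ℝ) < 1 / 4 by norm_num)
    filter_upwards [h2, eventually_ge_atTop 0] with L h3 h4
    simp only [Function.comp_apply] at h3
    rw [pow_mul, Real.sq_sqrt h4] at h3
    refine le_trans ?_ h3
    have h5 : Real.exp (-(2 * √L)) ≤ Real.exp (-√L) :=
      Real.exp_le_exp.2 (by linarith [Real.sqrt_nonneg L])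
    calc 8 * C * (L ^ (2 + A) * Real.exp (-(2 * √L))) ≤ 8 * |C| * (L ^ (2 + A) * Real.exp (-(2 * √L))) := by
          apply mul_le_mul_of_nonneg_right _ (by positivity)
          linarith [le_abs_self C]
      _ ≤ _ := by gcongr
  have e4 : ∀ᶠ L : ℝ in atTop, 256 * (L ^ (2 + A) * Real.exp (-(L / 2))) ≤ 1 / 4 := by
    have h0 : Tendsto (fun L : ℝ => L / 2) atTop atTop := tendsto_id.atTop_div_const (by norm_num)
    have h1 := ((Real.tendsto_pow_mul_exp_neg_atTop_nhds_zero (2 + A)).comp h0).const_mul (256 * 2 ^ (2 + A))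
    rw [mul_zero] at h1
    have h2 := h1.eventually_le_const (show (0 : ℝ) < 1 / 4 by norm_num)
    filter_upwards [h2] with L h3
    simp only [Function.comp_apply] at h3
    refine le_trans (le_of_eq ?_) h3
    rw [div_pow]
    field_simp
  filter_upwards [e1, e2, e3, e4, eventually_ge_atTop 10, eventually_ge_atTop Z1, eventually_ge_atTop (32 * C)]
    with L h1 h2 h3 h4 h5 h6 h7
  refine ⟨h5, h6, ?_, h2, h7, h3, h4⟩
  have h8 := Real.mul_self_sqrt (show 0 ≤ L by linarith)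
  calc 2 * C₁ * √L ≤ √L * √L := mul_le_mul_of_nonneg_right h1 (Real.sqrt_nonneg _)
    _ = L := h8

end MSA

open MSA in
theorem t_MS : S_MS := by
  intro hHYB hMBX hPXB hLSB hSHARP A
  obtain ⟨C₁, Z₁, hC₁, hZ₁, hH⟩ := hHYB hMBX hPXB hLSB (A + 1)
  obtain ⟨c0, Z₂, hc0, hZ₂, hK⟩ := KT (A + 1)
  obtain ⟨C, hC, hS⟩ := hSHARP
  have hev := (Real.tendsto_log_atTop.comp tendsto_natCast_atTop_atTop).eventually
    (ev A C C₁ c0 (max Z₁ Z₂) hc0)
  obtain ⟨X₁, hX₁⟩ := hev.exists_forall_of_atTop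
  refine ⟨20 * C₁ + 40 / c0 + 6, max X₁ 3, by
    have : 0 < 40 / c0 := by positivity
    linarith, fun X F ω T hX hF hCF hω hω4 hCω hFT hT hZF => ?_⟩
  have hX3 : 3 ≤ X := (le_max_right _ _).trans hX
  obtain ⟨L, hL⟩ : ∃ L, L = Real.log X := ⟨_, rfl⟩
  have hev2 := hX₁ X ((le_max_left _ _).trans hX)
  simp only [Function.comp_apply] at hev2
  rw [← hL] at hev2 hCF hCω hT
  obtain ⟨hL10, hLZ, hLs, hLl, hLC, hLe1, hLe2⟩ := hev2
  have hX0 : (0 : ℝ) < X := by
    have : (3 : ℝ) ≤ X := by exact_mod_cast hX3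
    linarith
  have hXe : (X : ℝ) = Real.exp L := by rw [hL, Real.exp_log hX0]
  have hF1 : (1 : ℝ) ≤ F := by exact_mod_cast hF
  have hF0 : (0 : ℝ) < F := by linarith
  have hlF : 0 ≤ Real.log F := Real.log_nonneg hF1
  have hL0 : 0 < L := by linarith
  have hsL : 0 ≤ √L := Real.sqrt_nonneg _
  have hLL : √L * √L = L := Real.mul_self_sqrt hL0.le
  have hsL3 : 3 ≤ √L := by
    rw [show (3 : ℝ) = √9 by
      rw [show (9 : ℝ) = 3 ^ 2 by norm_num, Real.sqrt_sq (by norm_num)]]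
    exact Real.sqrt_le_sqrt (by linarith)
  have hlL1 : 1 ≤ Real.log L := by
    rw [Real.le_log_iff_exp_le hL0]
    linarith [Real.exp_one_lt_d9]
  have hc40 : 0 < 40 / c0 := by positivity
  -- consequences of the condition on F
  have hFc : ∀ c : ℝ, 0 ≤ c → c ≤ 20 * C₁ + 40 / c0 + 6 → c * Real.log F ≤ L := by
    intro c hc hc2
    calc c * Real.log F = c * Real.log F * 1 := by ring
      _ ≤ (20 * C₁ + 40 / c0 + 6) * Real.log F * Real.log L := by gcongr
      _ ≤ L := hCF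
  -- parameters
  obtain ⟨lam, hlam⟩ : ∃ lam, lam = max (20 * Real.log F) (2 * √L) := ⟨_, rfl⟩
  have hlam1 : 20 * Real.log F ≤ lam := by rw [hlam]; exact le_max_left _ _
  have hlam2 : 2 * √L ≤ lam := by rw [hlam]; exact le_max_right _ _
  have hlam0 : 0 ≤ lam := by linarith
  obtain ⟨h, hh⟩ : ∃ h, h = Real.exp (-lam) := ⟨_, rfl⟩
  have hh0 : 0 < h := by rw [hh]; exact Real.exp_pos _
  have hh2 : h ≤ Real.exp (-(2 * √L)) := by rw [hh]; exact Real.exp_le_exp.2 (by linarith)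
  have hF5 : (F : ℝ) ^ 5 * h ≤ 1 := by
    have e1 : (F : ℝ) ^ 5 = Real.exp (5 * Real.log F) := by
      rw [show (5 : ℝ) * Real.log F = ((5 : ℕ) : ℝ) * Real.log F by norm_num, Real.exp_nat_mul,
        Real.exp_log hF0]
    rw [e1, hh, ← Real.exp_add]
    exact Real.exp_le_one_iff.2 (by linarith)
  have hF3 : (F : ℝ) ^ 3 ≤ X * Real.exp (-(L / 2)) := by
    have e1 : (F : ℝ) ^ 3 = Real.exp (3 * Real.log F) := by
      rw [show (3 : ℝ) * Real.log F = ((3 : ℕ) : ℝ) * Real.log F by norm_num, Real.exp_nat_mul,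
        Real.exp_log hF0]
    rw [e1, hXe, ← Real.exp_add]
    apply Real.exp_le_exp.2
    have := hFc 6 (by norm_num) (by linarith)
    linarith
  have hlamL : C₁ * lam ≤ L := by
    rw [hlam, mul_max_of_nonneg _ _ (by linarith)]
    apply max_le
    · have := hFc (20 * C₁) (by linarith) (by linarith)
      linarith
    · linarith
  have hlamlog : lam * (2 * Real.log L) ≤ c0 * L := by
    rw [hlam, max_mul_of_nonneg _ _ (by linarith)]
    apply max_le
    · have h1 : 40 / c0 * Real.log F * Real.log L ≤ L := by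
        refine le_trans ?_ hCF
        gcongr
        linarith
      have h2 : c0 * (40 / c0 * Real.log F * Real.log L) ≤ c0 * L := mul_le_mul_of_nonneg_left h1 hc0.le
      have h3 : c0 * (40 / c0 * Real.log F * Real.log L) = 20 * Real.log F * (2 * Real.log L) := by
        field_simp
        ring
      linarith
    · calc 2 * √L * (2 * Real.log L) = √L * (4 * Real.log L) := by ring
        _ ≤ √L * (c0 * √L) := mul_le_mul_of_nonneg_left hLl hsL
        _ = c0 * (√L * √L) := by ring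
        _ = c0 * L := by rw [hLL]
  have hTlam : Real.exp (3 * lam) ≤ T := by
    rw [hlam]
    rcases le_total (20 * Real.log F) (2 * √L) with h1 | h1
    · rw [max_eq_right h1]
      refine le_trans (Real.exp_le_exp.2 ?_) hT
      linarith
    · rw [max_eq_left h1]
      refine le_trans (le_of_eq ?_) hFT
      rw [show (3 : ℝ) * (20 * Real.log F) = ((60 : ℕ) : ℝ) * Real.log F by push_cast; ring,
        Real.exp_nat_mul, Real.exp_log hF0]
  obtain ⟨N, hN⟩ : ∃ N, N = ⌈Real.exp (L + 4)⌉₊ := ⟨_, rfl⟩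
  have hN1 : Real.exp (L + 4) ≤ N := by rw [hN]; exact Nat.le_ceil _
  have hlogL1 : Real.log (L + 1) ≤ 2 * Real.log L := by
    have : Real.log (L + 1) ≤ Real.log (L ^ 2) := by
      apply Real.log_le_log (by linarith)
      nlinarith
    rw [Real.log_pow] at this
    exact_mod_cast this
  -- the two windows
  have hwin : ∀ Z : ℝ, L ≤ Z → Z ≤ L + 1 → √Z ≤ lam ∧ C₁ * lam ≤ Z ∧ C₁ * Real.log Z ≤ ω * Z ∧
      lam * Real.log Z ≤ c0 * Z ∧ Real.exp (Z + 2) ≤ N ∧ Z₁ ≤ Z ∧ Z₂ ≤ Z ∧ 1 / Z ^ (A + 1) ≤ 1 / L ^ (A + 1) := by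
    intro Z hZ1 hZ2
    have hlZ : Real.log Z ≤ 2 * Real.log L := (Real.log_le_log (by linarith) hZ2).trans hlogL1
    have hlZ0 : 0 ≤ Real.log Z := Real.log_nonneg (by linarith)
    refine ⟨?_, by linarith, ?_, ?_, ?_, ?_, ?_, ?_⟩
    · refine le_trans ?_ hlam2
      rw [Real.sqrt_le_left (by positivity), mul_pow, Real.sq_sqrt hL0.le]
      linarith
    · have h1 : 2 * C₁ * Real.log L ≤ ω * L := by
        refine le_trans ?_ hCω
        gcongr
        linarith
      calc C₁ * Real.log Z ≤ C₁ * (2 * Real.log L) := by gcongr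
        _ = 2 * C₁ * Real.log L := by ring
        _ ≤ ω * L := h1
        _ ≤ ω * Z := by gcongr
    · calc lam * Real.log Z ≤ lam * (2 * Real.log L) := by gcongr
        _ ≤ c0 * L := hlamlog
        _ ≤ c0 * Z := by gcongr
    · exact le_trans (Real.exp_le_exp.2 (by linarith)) hN1
    · exact (le_max_left _ _).trans (hLZ.trans hZ1)
    · exact (le_max_right _ _).trans (hLZ.trans hZ1)
    · exact one_div_le_one_div_of_le (by positivity) (by gcongr)
  -- the mean square of `TX - κ`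
  obtain ⟨I, hI⟩ : ∃ I : (f : ℕ) → DirichletCharacter ℂ f → ℝ,
      I = fun f χ => ∫ z in L..(L + 2), ‖TX χ h N z - kpp f‖ ^ 2 := ⟨_, rfl⟩
  have hsplit : ∀ (f : ℕ) (χ : DirichletCharacter ℂ f), I f χ =
      (∫ z in L..(L + 1), ‖TX χ h N z - kpp f‖ ^ 2) + ∫ z in (L + 1)..(L + 1 + 1), ‖TX χ h N z - kpp f‖ ^ 2 := by
    intro f χ
    rw [hI]
    simp only
    have hc : Continuous fun z => ‖TX χ h N z - kpp f‖ ^ 2 := by
      have := TX_continuous χ h N
      fun_prop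
    rw [intervalIntegral.integral_add_adjacent_intervals (hc.intervalIntegrable _ _)
      (hc.intervalIntegrable _ _)]
    congr 1
    ring
  have hSI : ∑ f ∈ Finset.Icc 1 F, ((f : ℝ) / Nat.totient f) * ∑ χ ∈ prim f, I f χ ≤ 4 / L ^ (A + 1) := by
    have hIcc : Finset.Icc 1 F = insert 1 (Finset.Ioc 1 F) := by
      ext x
      simp only [Finset.mem_Icc, Finset.mem_insert, Finset.mem_Ioc]
      omega
    rw [hIcc, Finset.sum_insert (by simp)]
    have hw1 := hwin L le_rfl (by linarith)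
    have hw2 := hwin (L + 1) (by linarith) le_rfl
    have hpart1 : ((1 : ℕ) : ℝ) / Nat.totient 1 * ∑ χ ∈ prim 1, I 1 χ ≤ 2 / L ^ (A + 1) := by
      have hp : prim 1 = {1} := by
        ext χ
        rw [mem_prim, Finset.mem_singleton]
        constructor
        · intro _
          exact Subsingleton.elim _ _
        · rintro rfl
          exact DirichletCharacter.isPrimitive_one_level_one
      rw [hp, Finset.sum_singleton, Nat.totient_one, hsplit]
      have hTT : ∀ z, ‖TX (1 : DirichletCharacter ℂ 1) h N z - kpp 1‖ ^ 2 = (TT h N z - 1) ^ 2 := by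
        intro z
        have h1 : TX (1 : DirichletCharacter ℂ 1) h N z = ((TT h N z : ℝ) : ℂ) := by
          unfold TX TT triC
          push_cast
          apply Finset.sum_congr rfl
          intro u _
          have : (1 : DirichletCharacter ℂ 1) ((u : ℕ) : ZMod 1) = 1 := by
            rw [MulChar.one_apply (isUnit_of_subsingleton _)]
          rw [this, one_mul]
        rw [h1]
        unfold kpp
        rw [if_pos rfl, ← Complex.ofReal_one, ← Complex.ofReal_sub, Complex.norm_real, Real.norm_eq_abs,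
          sq_abs]
      simp only [hTT]
      have k1 := hK L lam h hw1.2.2.2.2.2.2.1 hh hw1.1 hw1.2.2.2.1 N hw1.2.2.2.2.1
      have k2 := hK (L + 1) lam h hw2.2.2.2.2.2.2.1 hh hw2.1 hw2.2.2.2.1 N hw2.2.2.2.2.1
      have k3 := hw2.2.2.2.2.2.2.2
      have e1 : 2 / L ^ (A + 1) = 1 / L ^ (A + 1) + 1 / L ^ (A + 1) := by ring
      rw [e1]
      push_cast
      rw [div_one, one_mul]
      linarith
    have hpart2 : ∑ f ∈ Finset.Ioc 1 F, ((f : ℝ) / Nat.totient f) * ∑ χ ∈ prim f, I f χ ≤ 2 / L ^ (A + 1) := by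
      have hlF2 : Real.log F ≤ lam := by linarith
      have k1 := hH F L lam h ω T hw1.2.2.2.2.2.1 hw1.1 hw1.2.1 hF hlF2 hh hω hω4 hw1.2.2.1 hTlam hZF N
        hw1.2.2.2.2.1
      have k2 := hH F (L + 1) lam h ω T hw2.2.2.2.2.2.1 hw2.1 hw2.2.1 hF hlF2 hh hω hω4 hw2.2.2.1 hTlam hZF N
        hw2.2.2.2.2.1
      have k3 := hw2.2.2.2.2.2.2.2
      have e1 : 2 / L ^ (A + 1) = 1 / L ^ (A + 1) + 1 / L ^ (A + 1) := by ring
      have e2 : ∑ f ∈ Finset.Ioc 1 F, ((f : ℝ) / Nat.totient f) * ∑ χ ∈ prim f, I f χ =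
          (∑ f ∈ Finset.Ioc 1 F, ((f : ℝ) / Nat.totient f) * ∑ χ ∈ prim f, ∫ z in L..(L + 1), ‖TX χ h N z‖ ^ 2) +
          ∑ f ∈ Finset.Ioc 1 F, ((f : ℝ) / Nat.totient f) * ∑ χ ∈ prim f, ∫ z in (L + 1)..(L + 1 + 1), ‖TX χ h N z‖ ^ 2 := by
        rw [← Finset.sum_add_distrib]
        apply Finset.sum_congr rfl
        intro f hf
        rw [Finset.mem_Ioc] at hf
        rw [← mul_add, ← Finset.sum_add_distrib]
        congr 1
        apply Finset.sum_congr rfl
        intro χ _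
        rw [hsplit]
        unfold kpp
        rw [if_neg (by omega)]
        simp only [sub_zero]
      rw [e1, e2]
      linarith
    have e1 : 4 / L ^ (A + 1) = 2 / L ^ (A + 1) + 2 / L ^ (A + 1) := by ring
    rw [e1]
    linarith
  -- use of SHARP
  intro n n' hn hn' hn3
  have hhX : 1 ≤ h * X := by
    rw [hh, hXe, ← Real.exp_add]
    apply Real.one_le_exp
    have : lam ≤ C₁ * lam := le_mul_of_one_le_left hlam0 hC₁
    linarith
  have hh4 : h ≤ 1 / 4 := by
    refine hh2.trans ?_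
    rw [Real.exp_neg, ← one_div]
    apply one_div_le_one_div_of_le (by norm_num)
    have := Real.add_one_le_exp (2 * √L)
    linarith
  have hkap : ∀ f : ℕ, ‖kpp f‖ ≤ 1 := by
    intro f
    unfold kpp
    split_ifs <;> simp
  have hFX : (F : ℝ) / X ≤ 1 := by
    rw [div_le_one hX0]
    calc (F : ℝ) ≤ (F : ℝ) ^ 3 := le_self_pow₀ hF1 (by norm_num)
      _ ≤ X * Real.exp (-(L / 2)) := hF3
      _ ≤ X * 1 := by
          apply mul_le_mul_of_nonneg_left _ hX0.le
          exact Real.exp_le_one_iff.2 (by linarith)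
      _ = X := mul_one _
  have hB0 : (0 : ℝ) ≤ (F : ℝ) / X := by positivity
  have hXB : (X : ℝ) * ((F : ℝ) / X) = F := by field_simp
  have hNL : Real.exp (Real.log X + 4) ≤ N := by rw [← hL]; exact hN1
  have hsharp : ∀ (f : ℕ) (χ : DirichletCharacter ℂ f),
      (∫ β in (-((F : ℝ) / X))..((F : ℝ) / X), ‖SC χ n n' β‖ ^ 2 ≤
        C * X * I f χ + C * ((F : ℝ) / X) * (h * X * (1 + F) * L) ^ 2) ∧
      ‖SC χ n n' 0‖ ^ 2 ≤ C * (X : ℝ) ^ 2 * I f χ + C * (h * X * L) ^ 2 := by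
    intro f χ
    have h1 := hS f χ (kpp f) X n n' N ((F : ℝ) / X) h (hkap f) hX3 hn hn' hn3 hh0 hh4 hhX hB0 hFX hNL
    rw [hXB, ← hL] at h1
    rw [hI]
    refine ⟨h1.1, ?_⟩
    refine le_trans (le_of_eq ?_) h1.2
    unfold SC
    simp only [mul_zero, ee_zero, mul_one]
  have hSI0 : 0 ≤ ∑ f ∈ Finset.Icc 1 F, ((f : ℝ) / Nat.totient f) * ∑ χ ∈ prim f, I f χ := by
    apply Finset.sum_nonneg
    intro f _
    apply mul_nonneg (by positivity)
    apply Finset.sum_nonneg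
    intro χ _
    rw [hI]
    exact intervalIntegral.integral_nonneg (by linarith) fun z _ => by positivity
  have hLA : 0 < L ^ A := by positivity
  -- the final numerical inequality
  have hfin : 8 * C / L ^ (A + 1) + 8 * C * (L ^ 2 * Real.exp (-(2 * √L))) +
      256 * (L ^ 2 * Real.exp (-(L / 2))) ≤ 1 / L ^ A := by
    rw [le_div_iff₀ hLA]
    have e1 : 8 * C / L ^ (A + 1) * L ^ A = 8 * C / L := by
      rw [pow_succ]; field_simp
    have e2 : 8 * C / L ≤ 1 / 4 := by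
      rw [div_le_iff₀ hL0]; linarith
    have e3 : L ^ (2 + A) = L ^ 2 * L ^ A := pow_add _ _ _
    rw [e3] at hLe1 hLe2
    calc _ = 8 * C / L ^ (A + 1) * L ^ A + 8 * C * (L ^ 2 * L ^ A * Real.exp (-(2 * √L))) +
          256 * (L ^ 2 * L ^ A * Real.exp (-(L / 2))) := by ring
      _ ≤ 1 / 4 + 1 / 4 + 1 / 4 := by rw [e1]; linarith
      _ ≤ 1 := by norm_num
  rw [← hL]
  constructor
  · have h1 := char_sum F (a := 2 * (C * X))
      (b := 2 * (C * ((F : ℝ) / X) * (h * X * (1 + F) * L) ^ 2) + 256 * ((F : ℝ) / X * (X * L ^ 2)))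
      I (fun f χ => ∫ β in (-((F : ℝ) / X))..((F : ℝ) / X), ‖DC χ n n' β‖ ^ 2) (by positivity) (by
        intro f _ χ _
        have h2 := int_bound χ (n := n) hX3 hn3 hB0
        rw [← hL] at h2
        have h3 := (hsharp f χ).1
        linarith)
    refine h1.trans ?_
    have h2 : 2 * (C * X) * (∑ f ∈ Finset.Icc 1 F, ((f : ℝ) / Nat.totient f) * ∑ χ ∈ prim f, I f χ) ≤
        2 * (C * X) * (4 / L ^ (A + 1)) := mul_le_mul_of_nonneg_left hSI (by positivity)
    have h3 : 2 * (C * ((F : ℝ) / X) * (h * X * (1 + F) * L) ^ 2) * (F : ℝ) ^ 2 ≤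
        X * (8 * C * (L ^ 2 * Real.exp (-(2 * √L)))) := by
      have e1 : 2 * (C * ((F : ℝ) / X) * (h * X * (1 + F) * L) ^ 2) * (F : ℝ) ^ 2 =
          2 * C * X * L ^ 2 * ((1 + F) ^ 2 * (F : ℝ) ^ 3 * h) * h := by
        field_simp
      have e2 : (1 + (F : ℝ)) ^ 2 * (F : ℝ) ^ 3 * h ≤ 4 := by
        have e3 : (1 + (F : ℝ)) ^ 2 ≤ (2 * F) ^ 2 := by gcongr; linarith
        calc (1 + (F : ℝ)) ^ 2 * (F : ℝ) ^ 3 * h ≤ (2 * F) ^ 2 * (F : ℝ) ^ 3 * h := by gcongr
          _ = 4 * ((F : ℝ) ^ 5 * h) := by ring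
          _ ≤ 4 * 1 := by gcongr
          _ = 4 := by ring
      rw [e1]
      calc _ ≤ 2 * C * X * L ^ 2 * 4 * Real.exp (-(2 * √L)) := by gcongr
        _ = _ := by ring
    have h4 : 256 * ((F : ℝ) / X * (X * L ^ 2)) * (F : ℝ) ^ 2 ≤ X * (256 * (L ^ 2 * Real.exp (-(L / 2)))) := by
      have e1 : 256 * ((F : ℝ) / X * (X * L ^ 2)) * (F : ℝ) ^ 2 = 256 * L ^ 2 * (F : ℝ) ^ 3 := by
        field_simp
      rw [e1]
      calc _ ≤ 256 * L ^ 2 * (X * Real.exp (-(L / 2))) := by gcongr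
        _ = _ := by ring
    calc _ ≤ 2 * (C * X) * (4 / L ^ (A + 1)) + (X * (8 * C * (L ^ 2 * Real.exp (-(2 * √L)))) +
          X * (256 * (L ^ 2 * Real.exp (-(L / 2))))) := by
          rw [add_mul]
          linarith
      _ = X * (8 * C / L ^ (A + 1) + 8 * C * (L ^ 2 * Real.exp (-(2 * √L))) +
          256 * (L ^ 2 * Real.exp (-(L / 2)))) := by ring
      _ ≤ X * (1 / L ^ A) := mul_le_mul_of_nonneg_left hfin hX0.le
      _ = _ := by ring
  · have h1 := char_sum F (a := 2 * (C * (X : ℝ) ^ 2))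
      (b := 2 * (C * (h * X * L) ^ 2) + 128 * (X * L ^ 2))
      I (fun f χ => ‖DC χ n n' 0‖ ^ 2) (by positivity) (by
        intro f _ χ _
        have h2 := sq_bound χ (n := n) hX3 hn3 0
        rw [← hL] at h2
        have h3 := (hsharp f χ).2
        linarith)
    refine h1.trans ?_
    have h2 : 2 * (C * (X : ℝ) ^ 2) * (∑ f ∈ Finset.Icc 1 F, ((f : ℝ) / Nat.totient f) * ∑ χ ∈ prim f, I f χ) ≤
        2 * (C * (X : ℝ) ^ 2) * (4 / L ^ (A + 1)) := mul_le_mul_of_nonneg_left hSI (by positivity)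
    have h3 : 2 * (C * (h * X * L) ^ 2) * (F : ℝ) ^ 2 ≤
        (X : ℝ) ^ 2 * (8 * C * (L ^ 2 * Real.exp (-(2 * √L)))) := by
      have e1 : 2 * (C * (h * X * L) ^ 2) * (F : ℝ) ^ 2 =
          2 * C * (X : ℝ) ^ 2 * L ^ 2 * ((F : ℝ) ^ 2 * h) * h := by ring
      have e2 : (F : ℝ) ^ 2 * h ≤ 4 := by
        calc (F : ℝ) ^ 2 * h ≤ (F : ℝ) ^ 5 * h :=
              mul_le_mul_of_nonneg_right (pow_le_pow_right₀ hF1 (by norm_num)) hh0.le
          _ ≤ 1 := hF5
          _ ≤ 4 := by norm_num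
      rw [e1]
      calc _ ≤ 2 * C * (X : ℝ) ^ 2 * L ^ 2 * 4 * Real.exp (-(2 * √L)) := by gcongr
        _ = _ := by ring
    have h4 : 128 * (X * L ^ 2) * (F : ℝ) ^ 2 ≤ (X : ℝ) ^ 2 * (256 * (L ^ 2 * Real.exp (-(L / 2)))) := by
      have e1 : (F : ℝ) ^ 2 ≤ (F : ℝ) ^ 3 := pow_le_pow_right₀ hF1 (by norm_num)
      calc _ ≤ 256 * (X * L ^ 2) * (X * Real.exp (-(L / 2))) := by
            apply mul_le_mul _ (e1.trans hF3) (by positivity) (by positivity)
            have : 0 ≤ (X : ℝ) * L ^ 2 := by positivity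
            linarith
        _ = _ := by ring
    calc _ ≤ 2 * (C * (X : ℝ) ^ 2) * (4 / L ^ (A + 1)) + ((X : ℝ) ^ 2 * (8 * C * (L ^ 2 * Real.exp (-(2 * √L)))) +
          (X : ℝ) ^ 2 * (256 * (L ^ 2 * Real.exp (-(L / 2))))) := by
          rw [add_mul]
          linarith
      _ = (X : ℝ) ^ 2 * (8 * C / L ^ (A + 1) + 8 * C * (L ^ 2 * Real.exp (-(2 * √L))) +
          256 * (L ^ 2 * Real.exp (-(L / 2)))) := by ring
      _ ≤ (X : ℝ) ^ 2 * (1 / L ^ A) := mul_le_mul_of_nonneg_left hfin (by positivity)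
      _ = _ := by ring

end Pool.Agent.Q145.SZ
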